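import Mathlib

set_option autoImplicit false

/-! # Numerical lemmas for the sharp covering theorem (helper10) -/

namespace Pool.Agent.K4H10.EX.Num

theorem a_u (u M L Λ ε : ℝ) (hM : 0 < M) (hu : u * M ≤ (1 / 2 - ε) * L * Λ) (hε : 0 < ε)
    (hε1 : ε ≤ 1 / 10) (hΛ : 0 < Λ) (hL : 0 < L) :
    u * (1 / ((1 - ε / 4) * Λ / M)) ≤ (1 - ε / 4) * ((1 / 2 - ε / 4) * L) := by
  have h1 : 0 < 1 - ε / 4 := by linarith
  rw [one_div_div, mul_div_assoc', div_le_iff₀ (by positivity)]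
  have h2 : (1 / 2 - ε) ≤ (1 - ε / 4) * (1 - ε / 4) * (1 / 2 - ε / 4) := by
    have e1 : (1 - ε / 4) * (1 - ε / 4) * (1 / 2 - ε / 4) - (1 / 2 - ε) =
        ε / 2 + ε ^ 2 * (5 / 32 - ε / 64) := by ring
    have e2 : 0 ≤ ε ^ 2 * (5 / 32 - ε / 64) := mul_nonneg (sq_nonneg _) (by linarith)
    linarith
  calc u * M ≤ (1 / 2 - ε) * L * Λ := hu
    _ = (1 / 2 - ε) * (L * Λ) := by ring
    _ ≤ (1 - ε / 4) * (1 - ε / 4) * (1 / 2 - ε / 4) * (L * Λ) :=
        mul_le_mul_of_nonneg_right h2 (by positivity)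
    _ = _ := by ring

theorem a_uL (u L l Λ ε M : ℝ) (hl : 0 < l) (hL : 0 < L) (hu0 : 0 ≤ u) (hM : 2 * l ≤ M)
    (hu : u * M ≤ (1 / 2 - ε) * L * Λ) (hε : 0 < ε) (hΛ0 : 0 < Λ) (hΛ : Λ ≤ l) : u ≤ L / 4 := by
  have h1 : u * (2 * l) ≤ (L / 4) * (2 * l) := by
    calc u * (2 * l) ≤ u * M := mul_le_mul_of_nonneg_left hM hu0
      _ ≤ (1 / 2 - ε) * L * Λ := hu
      _ ≤ (1 / 2) * L * l := by
          apply mul_le_mul _ hΛ hΛ0.le (by positivity)
          apply mul_le_mul_of_nonneg_right _ hL.le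
          linarith
      _ = _ := by ring
  exact le_of_mul_le_mul_right h1 (by positivity)

theorem a_c (ε : ℝ) (hε : 0 < ε) (hε1 : ε ≤ 1 / 10) :
    (ε / 16) ^ 2 / 200 ≤ 1 / 1000000 ∧ 27 * ((ε / 16) ^ 2 / 200) ≤ ε / 4 := by
  constructor <;> nlinarith

theorem a_ySl (l L Λ c : ℝ) (hl : 10 ≤ l) (hΛ : 0 < Λ) (h6 : l ^ 2 ≤ c * L) :
    l ≤ min (l * Real.exp Λ) (c * L / l) := by
  rw [le_min_iff]
  constructor
  · have := Real.one_le_exp hΛ.le
    nlinarith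
  · rw [le_div_iff₀ (by linarith)]
    nlinarith

theorem a_ySL (yS l L c : ℝ) (hl : 10 ≤ l) (hL : 0 < L) (hc0 : 0 < c) (hc : c ≤ 1 / 1000000)
    (h : yS ≤ c * L / l) : yS ≤ L := by
  refine h.trans ?_
  rw [div_le_iff₀ (by linarith)]
  nlinarith

theorem a_K (C Λ ε l M : ℝ) (hC : 0 < C) (hε : 0 < ε) (hε1 : ε ≤ 1 / 10) (hΛ : 16 * C / ε ≤ Λ)
    (hl : 0 < l) (hM : M ≤ C * l) (hM0 : 0 < M) : 1 / ((1 - ε / 4) * Λ / M) ≤ l := by
  have hΛ0 : 0 < Λ := lt_of_lt_of_le (by positivity) hΛ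
  have h1 : 0 < 1 - ε / 4 := by linarith
  rw [one_div_div, div_le_iff₀ (by positivity)]
  have e1 : 16 * C ≤ Λ * ε := by rwa [div_le_iff₀ hε] at hΛ
  have e2 : C ≤ (1 - ε / 4) * Λ := by nlinarith
  calc M ≤ C * l := hM
    _ ≤ (1 - ε / 4) * Λ * l := mul_le_mul_of_nonneg_right e2 hl.le
    _ = _ := by ring

theorem a_supp (s l L lQ ε : ℝ) (hs : 0 ≤ s) (hl : 10 ≤ l) (hL : 0 < L) (hε : 0 < ε)
    (hlQ : lQ = (1 / 2 - ε / 4) * L) (h : s * (2 * l) ≤ lQ) : s ≤ L / 2 := by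
  have h4 : lQ ≤ L / 2 := by rw [hlQ]; nlinarith
  nlinarith

theorem a_tail (η c ε L l lQ yS u K : ℝ) (hη0 : 0 < η) (hη : η = ε / 16) (hη1 : η ≤ 1 / 160)
    (hc : c = η ^ 2 / 200) (hL : 0 < L) (hl : 10 ≤ l) (hε1 : ε ≤ 1 / 10)
    (hlQ : lQ = (1 / 2 - ε / 4) * L) (hyS : 0 < yS) (hySc : yS ≤ c * L / l)
    (huK : u * K ≤ (1 - ε / 4) * lQ) :
    η * ((1 + η) * u * K - (lQ - yS)) / yS ≤ 1 - 100 * l := by
  have hl0 : 0 < l := by linarith
  have hlQ0 : 0 < lQ := by rw [hlQ]; apply mul_pos _ hL; linarith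
  rw [div_le_iff₀ hyS]
  have e1 : (1 + η) * u * K ≤ (1 - 3 * η) * lQ := by
    have e2 : (1 + η) * (u * K) ≤ (1 + η) * ((1 - ε / 4) * lQ) :=
      mul_le_mul_of_nonneg_left huK (by linarith)
    have e3 : (1 + η) * (1 - ε / 4) ≤ 1 - 3 * η := by
      have : ε / 4 = 4 * η := by rw [hη]; ring
      rw [this]; nlinarith
    calc (1 + η) * u * K = (1 + η) * (u * K) := by ring
      _ ≤ (1 + η) * ((1 - ε / 4) * lQ) := e2
      _ = ((1 + η) * (1 - ε / 4)) * lQ := by ring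
      _ ≤ _ := mul_le_mul_of_nonneg_right e3 hlQ0.le
  have e4 : L / 4 ≤ lQ := by rw [hlQ]; nlinarith
  have e5 : 100 * l * yS ≤ 3 * η ^ 2 * lQ := by
    calc 100 * l * yS ≤ 100 * l * (c * L / l) :=
          mul_le_mul_of_nonneg_left hySc (by positivity)
      _ = η ^ 2 / 2 * L := by rw [hc]; field_simp; norm_num
      _ ≤ 3 * η ^ 2 * (L / 4) := by nlinarith [mul_pos (pow_pos hη0 2) hL]
      _ ≤ 3 * η ^ 2 * lQ := mul_le_mul_of_nonneg_left e4 (by positivity)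
  have e6 : η * ((1 + η) * u * K - (lQ - yS)) ≤ η * (-(3 * η) * lQ + yS) := by
    apply mul_le_mul_of_nonneg_left _ hη0.le
    linarith
  have e7 : η * yS ≤ 1 * yS := mul_le_mul_of_nonneg_right (by linarith) hyS.le
  nlinarith

theorem a_tail2 (u L l : ℝ) (hL : 1000 ≤ L) (hLexp : L = Real.exp l) (hu0 : 0 ≤ u)
    (huL : u ≤ L / 4) (hl : 10 ≤ l) (x : ℝ) (hx : x ≤ 1 - 100 * l) :
    (u + 1) * ((1 / L) ^ 2 + Real.exp x) ≤ 1 / 8 := by
  have hL0 : 0 < L := by linarith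
  have h3 : Real.exp x ≤ 1 / L ^ 2 := by
    have e1 : (1:ℝ) / L ^ 2 = Real.exp (-(2 * l)) := by
      rw [Real.exp_neg, hLexp, ← Real.exp_nat_mul]
      push_cast
      rw [one_div]
    rw [e1]
    apply Real.exp_le_exp.mpr
    linarith
  have h4 : (u + 1) * ((1 / L) ^ 2 + Real.exp x) ≤ L * (2 / L ^ 2) := by
    apply mul_le_mul (by linarith) _ (by positivity) hL0.le
    have : (1 / L) ^ 2 = 1 / L ^ 2 := by rw [div_pow, one_pow]
    rw [this]
    have e : (2:ℝ) / L ^ 2 = 1 / L ^ 2 + 1 / L ^ 2 := by ring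
    rw [e]
    linarith
  have h5 : L * (2 / L ^ 2) = 2 / L := by field_simp
  have h6 : 2 / L ≤ 1 / 8 := by rw [div_le_div_iff₀ hL0 (by norm_num)]; linarith
  linarith

theorem a_mom (u L l G : ℝ) (J : ℕ) (hL : 1000 ≤ L) (hLexp : L = Real.exp l) (hu0 : 0 ≤ u)
    (huL : u ≤ L / 4) (hl : 10 ≤ l) (hJ : 24 * l ≤ J) (hG : 20 * G ≤ 21 * l) :
    u * (1 / 3) ^ J * Real.exp ((2 + 6 * 3) * G) ≤ 1 / 8 := by
  have hL0 : 0 < L := by linarith
  have h1 : (1 / (3:ℝ)) ^ J ≤ Real.exp (-(24 * l)) := by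
    have e1 : (1 / (3:ℝ)) = Real.exp (-(Real.log 3)) := by
      rw [Real.exp_neg, Real.exp_log (by norm_num)]; norm_num
    rw [e1, ← Real.exp_nat_mul]
    apply Real.exp_le_exp.mpr
    have e2 : (1:ℝ) ≤ Real.log 3 := by
      rw [Real.le_log_iff_exp_le (by norm_num)]
      have := Real.exp_one_lt_d9
      linarith
    have e3 : 24 * l ≤ J * Real.log 3 := by nlinarith
    linarith
  have h2 : Real.exp ((2 + 6 * 3) * G) ≤ Real.exp (21 * l) := by
    apply Real.exp_le_exp.mpr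
    linarith
  have h3 : (1 / (3:ℝ)) ^ J * Real.exp ((2 + 6 * 3) * G) ≤ 1 / L ^ 2 := by
    calc (1 / (3:ℝ)) ^ J * Real.exp ((2 + 6 * 3) * G)
        ≤ Real.exp (-(24 * l)) * Real.exp (21 * l) :=
          mul_le_mul h1 h2 (Real.exp_pos _).le (Real.exp_pos _).le
      _ = Real.exp (-(3 * l)) := by rw [← Real.exp_add]; congr 1; ring
      _ ≤ Real.exp (-(2 * l)) := Real.exp_le_exp.mpr (by linarith)
      _ = 1 / L ^ 2 := by
          rw [Real.exp_neg, hLexp, ← Real.exp_nat_mul]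
          push_cast
          rw [one_div]
  calc u * (1 / (3:ℝ)) ^ J * Real.exp ((2 + 6 * 3) * G)
      = u * ((1 / (3:ℝ)) ^ J * Real.exp ((2 + 6 * 3) * G)) := by ring
    _ ≤ (L / 4) * (1 / L ^ 2) := mul_le_mul huL h3 (by positivity) (by positivity)
    _ = 1 / (4 * L) := by field_simp
    _ ≤ 1 / 8 := by
        apply one_div_le_one_div_of_le (by norm_num)
        linarith

theorem a_fin (ε L u lQ nz : ℝ) (H r J : ℕ) (hε : 0 < ε) (hL : 1000 ≤ L)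
    (hu0 : 0 ≤ u) (huL : u ≤ L / 4) (hlQ : lQ ≤ L / 2) (hnz0 : 0 ≤ nz)
    (hnz : nz ^ J ≤ Real.exp (ε / 4 * L)) (hε1 : ε ≤ 1 / 10)
    (hH : Real.exp ((1 - ε / 8) * L) ≤ H) (hr : 40 / ε ≤ r) :
    Real.exp ((1 - ε / 4) * L) ^ r * (9 * (Real.exp lQ) ^ 4 * (1 + u * nz ^ J)) <
      (H:ℝ) ^ r / 8 := by
  have hL0 : 0 < L := by linarith
  have h1 : (Real.exp ((1 - ε / 8) * L)) ^ r ≤ (H:ℝ) ^ r :=
    pow_le_pow_left₀ (Real.exp_pos _).le hH r
  have h2 : (Real.exp ((1 - ε / 8) * L)) ^ r = Real.exp ((1 - ε / 4) * L) ^ r *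
      Real.exp (r * (ε / 8 * L)) := by
    rw [← Real.exp_nat_mul, ← Real.exp_nat_mul, ← Real.exp_add]
    congr 1
    ring
  have h3 : Real.exp (5 * L) ≤ Real.exp (r * (ε / 8 * L)) := by
    apply Real.exp_le_exp.mpr
    rw [div_le_iff₀ hε] at hr
    calc 5 * L = 40 / 8 * L := by ring
      _ ≤ (r * ε) / 8 * L := by
          apply mul_le_mul_of_nonneg_right _ hL0.le
          linarith
      _ = _ := by ring
  have h4 : (Real.exp lQ) ^ 4 ≤ Real.exp (2 * L) := by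
    rw [← Real.exp_nat_mul]
    apply Real.exp_le_exp.mpr
    push_cast
    linarith
  have hLe : L ≤ Real.exp L := by
    have := Real.add_one_le_exp L
    linarith
  have h5 : 1 + u * nz ^ J ≤ Real.exp (2 * L) := by
    have e1 : nz ^ J ≤ Real.exp (L / 40) := by
      refine hnz.trans (Real.exp_le_exp.mpr ?_)
      nlinarith
    have e2 : nz ^ J ≤ Real.exp L := e1.trans (Real.exp_le_exp.mpr (by linarith))
    have e3 : u * nz ^ J ≤ (L / 4) * Real.exp L := mul_le_mul huL e2 (by positivity) (by linarith)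
    have e4 : (L / 4) * Real.exp L ≤ (Real.exp L / 4) * Real.exp L :=
      mul_le_mul_of_nonneg_right (by linarith) (Real.exp_pos _).le
    have e5 : (Real.exp L / 4) * Real.exp L = Real.exp (2 * L) / 4 := by
      rw [two_mul, Real.exp_add]; ring
    have e6 : 1 + 2 * L ≤ Real.exp (2 * L) := by
      have := Real.add_one_le_exp (2 * L)
      linarith
    linarith
  have h6 : 9 * (Real.exp lQ) ^ 4 * (1 + u * nz ^ J) < Real.exp (5 * L) / 8 := by
    have e1 : 9 * (Real.exp lQ) ^ 4 * (1 + u * nz ^ J) ≤ 9 * Real.exp (2 * L) * Real.exp (2 * L) := by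
      apply mul_le_mul _ h5 (by positivity) (by positivity)
      linarith
    have e2 : 9 * Real.exp (2 * L) * Real.exp (2 * L) = 9 * Real.exp (4 * L) := by
      rw [mul_assoc, ← Real.exp_add]; congr 2; ring
    have e3 : Real.exp (5 * L) = Real.exp (4 * L) * Real.exp L := by
      rw [← Real.exp_add]; congr 1; ring
    have e4 : (72:ℝ) < Real.exp L := by linarith
    have e5 := Real.exp_pos (4 * L)
    rw [e3]
    nlinarith
  have h7 : (0:ℝ) < Real.exp ((1 - ε / 4) * L) ^ r := by positivity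
  calc Real.exp ((1 - ε / 4) * L) ^ r * (9 * (Real.exp lQ) ^ 4 * (1 + u * nz ^ J))
      < Real.exp ((1 - ε / 4) * L) ^ r * (Real.exp (5 * L) / 8) := mul_lt_mul_of_pos_left h6 h7
    _ ≤ Real.exp ((1 - ε / 4) * L) ^ r * (Real.exp (r * (ε / 8 * L)) / 8) := by
        apply mul_le_mul_of_nonneg_left _ h7.le
        linarith
    _ = (Real.exp ((1 - ε / 8) * L)) ^ r / 8 := by rw [h2]; ring
    _ ≤ _ := by linarith

end Pool.Agent.K4H10.EX.Num
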