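import Pool.Agent.K4H10.EX.Cov1
import Pool.Agent.K4H10.EX.Num

set_option autoImplicit false
set_option linter.unusedSectionVars false

/-! # The sharp covering theorem (helper10) -/

namespace Pool.Agent.K4H10.EX

open Finset Filter Pool.Agent.H256R2.SC

open scoped Classical

theorem cov_sharp (ε : ℝ) (hε : 0 < ε) (hε1 : ε ≤ 1 / 10) : ∃ Λ₀ L₀ : ℝ, 1 ≤ Λ₀ ∧ ∀ L : ℝ, L₀ ≤ L →
    ∀ Λ : ℝ, Λ₀ ≤ Λ → Λ ≤ Real.log L →
    ∀ (κ : Type) [Fintype κ] [DecidableEq κ],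
    (Fintype.card κ : ℝ) * MP (L ^ 2) ≤ (1 / 2 - ε) * L * Λ →
    ∀ (res : ℕ → κ → ℤ), (∀ p : ℕ, p.Prime → L ^ 2 < p → ∀ k l, k ≠ l →
      ¬ ((p : ℤ) ∣ res p k - res p l)) →
    ∀ (H r : ℕ), Real.exp ((1 - ε / 8) * L) ≤ H → 40 / ε ≤ r →
    ∃ a : Fin r → Fin H, ∀ k : κ, ∃ p : ℕ, p.Prime ∧ L ^ 2 < p ∧
      Real.log p ≤ Real.log L * Real.exp Λ ∧ (p : ℤ) ∣ (∑ i, ((a i : ℕ) : ℤ)) - res p k := by
  obtain ⟨C₃, hC₃, hMPu⟩ := MP_upper
  obtain ⟨CM₀, hM₀⟩ := Pool.Agent.Helper256.KM.mertens_inv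
  set CM : ℝ := max CM₀ 0 with hCM
  have hCM0 : 0 ≤ CM := le_max_right _ _
  set C₄ : ℝ := 2 * C₃ with hC₄
  have hC₄0 : 0 < C₄ := by rw [hC₄]; linarith
  set η : ℝ := ε / 16 with hη
  have hη0 : 0 < η := by positivity
  have hη1 : η ≤ 1 / 160 := by rw [hη]; linarith
  set c : ℝ := η ^ 2 / 200 with hc
  have hc0 : 0 < c := by positivity
  obtain ⟨hc1, hc27⟩ := Num.a_c ε hε hε1
  rw [← hη, ← hc] at hc1 hc27
  obtain ⟨L₀, hL₀⟩ := ev_cov (ε / 16) c CM (by positivity) hc0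
  refine ⟨16 * C₄ / ε, L₀, ?_, ?_⟩
  · rw [le_div_iff₀ hε, hC₄]
    linarith
  intro L hLL Λ hΛ hΛ1 κ _ _ hκ res hres H r hH hr
  obtain ⟨f1, f2, f3, f4, f5, f6, f7⟩ := hL₀ L hLL
  set l := Real.log L with hl
  have hl0 : 0 < l := by linarith
  have hL0 : 0 < L := by linarith
  have hLexp : L = Real.exp l := (Real.exp_log hL0).symm
  have hΛ0 : 0 < Λ := lt_of_lt_of_le (div_pos (by linarith) hε) hΛ
  have hLL2 : 1000 * L ≤ L ^ 2 := by rw [sq]; exact mul_le_mul_of_nonneg_right f4 hL0.le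
  set w : ℝ := L ^ 2 with hw
  have hw9 : 1000000 ≤ w := by linarith
  have hw3 : 3 ≤ w := by linarith
  have hw0 : 0 < w := by linarith
  have hlogw : Real.log w = 2 * l := by rw [hw, Real.log_pow]; push_cast; ring
  have hM := MP_pos w
  have hMP4 : MP w ≤ C₄ * l := by
    refine (hMPu w hw3).trans (le_of_eq ?_)
    rw [hlogw, hC₄]; ring
  have hMPl : 2 * l ≤ MP w := by rw [← hlogw]; exact MP_lower w (by linarith)
  have hB := Bsum_primes ε C₄ L Λ c hε hε1 (by linarith) hMP4 hΛ hΛ1 hc0 f1 f3 f4 f6 f7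
  rw [← hl, ← hw] at hB
  have hySl := Num.a_ySl l L Λ c f1 hΛ0 f6
  set yS : ℝ := min (l * Real.exp Λ) (c * L / l) with hyS
  set z : ℝ := Real.exp yS with hz
  have hyS0 : 0 < yS := by linarith
  have hySc : yS ≤ c * L / l := min_le_right _ _
  have hySL : yS ≤ L := Num.a_ySL yS l L c f1 hL0 hc0 hc1 hySc
  have hz1 : 1 < z := by rw [hz]; exact Real.one_lt_exp_iff.mpr hyS0
  have hzpos : 0 < z := by linarith
  have hlogz : Real.log z = yS := Real.log_exp _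
  -- the sieving primes
  set PP : Finset ℕ := PS w z ∅ with hPP
  have hPPmem : ∀ p ∈ PP, p.Prime ∧ w < (p:ℝ) ∧ (p:ℝ) ≤ z := by
    intro p hp
    rw [hPP] at hp
    unfold PS at hp
    rw [Finset.mem_filter, Finset.mem_Icc] at hp
    refine ⟨hp.2.1, hp.2.2.1, ?_⟩
    calc (p:ℝ) ≤ (⌊z⌋₊ : ℝ) := by exact_mod_cast hp.1.2
      _ ≤ z := Nat.floor_le hzpos.le
  have hPprime : ∀ p ∈ PP, p.Prime := fun p hp => (hPPmem p hp).1
  have hinj : ∀ p ∈ PP, ∀ k l : κ, k ≠ l → ¬ ((p : ℤ) ∣ res p k - res p l) := by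
    intro p hp
    obtain ⟨h1, h2, h4⟩ := hPPmem p hp
    exact hres p h1 h2
  set n : ℕ := PP.card with hn
  set P : Fin n → ℝ := fun i => ((emb PP i : ℕ) : ℝ) with hP
  set g : Fin n → ℝ := fun i => 1 / ((emb PP i : ℕ) : ℝ) with hg
  have hPy : ∀ i, w < P i := fun i => (hPPmem _ (emb_mem PP i)).2.1
  have hPz : ∀ i, P i ≤ z := fun i => (hPPmem _ (emb_mem PP i)).2.2
  have hP1 : ∀ i, 1 < P i := fun i => by have := hPy i; linarith
  have hP0 : ∀ i, 0 < P i := fun i => by have := hPy i; linarith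
  have hgP : ∀ i, g i = 1 / P i := fun i => rfl
  have hg0 : ∀ i, 0 < g i := fun i => by
    rw [hgP]
    exact div_pos one_pos (hP0 i)
  have hgy : ∀ i, g i ≤ 1 / w := fun i => by
    rw [hgP]
    exact one_div_le_one_div_of_le hw0 (hPy i).le
  -- the profile
  have hlow : 0 < (1 - ε / 4) * Λ / MP w :=
    div_pos (mul_pos (by linarith) hΛ0) hM
  have hBpos : 0 < Bsum P g z := lt_of_lt_of_le hlow hB
  set K : ℝ := 1 / Bsum P g z with hK
  have hK0 : 0 < K := div_pos one_pos hBpos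
  have hKle : K ≤ 1 / ((1 - ε / 4) * Λ / MP w) := one_div_le_one_div_of_le hlow hB
  have hKl : K ≤ l := hKle.trans (Num.a_K C₄ Λ ε l (MP w) hC₄0 hε hε1 hΛ hl0 hMP4 hM)
  have Hy : Hyp P g (prof P z K) z K := hyp_prof P g hP1 hg0 z hz1 hBpos (by
    intro i
    rw [← hK]
    refine hKl.trans ?_
    have h1 : Real.log w ≤ Real.log (P i) := Real.log_le_log hw0 (hPy i).le
    linarith)
  set u : ℝ := (Fintype.card κ : ℝ) with hu
  have hu0 : 0 ≤ u := Nat.cast_nonneg _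
  have huK : u * K ≤ (1 - ε / 4) * ((1 / 2 - ε / 4) * L) :=
    (mul_le_mul_of_nonneg_left hKle hu0).trans (Num.a_u u (MP w) L Λ ε hM hκ hε hε1 hΛ0 hL0)
  have huL : u ≤ L / 4 := Num.a_uL u L l Λ ε (MP w) hl0 hL0 hu0 hMPl hκ hε hΛ0 hΛ1
  -- the sum of the reciprocals
  have hG : ∑ i, g i ≤ l + CM := by
    have h1 : ∑ i, g i = ∑ p ∈ PP, 1 / (p:ℝ) := by
      have : PP = univ.map (emb PP) := by
        ext p
        rw [Finset.mem_map]
        constructor
        · intro hp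
          obtain ⟨i, hi⟩ := emb_surj PP hp
          exact ⟨i, Finset.mem_univ _, hi⟩
        · rintro ⟨i, _, rfl⟩
          exact emb_mem PP i
      conv_rhs => rw [this]
      rw [Finset.sum_map]
    have hz3 : 3 ≤ ⌊z⌋₊ := by
      apply Nat.le_floor
      push_cast
      have := Real.add_one_le_exp yS
      rw [hz]
      linarith
    have h2 := (abs_le.mp (hM₀ ⌊z⌋₊ hz3)).2
    have h3 : ∑ p ∈ PP, 1 / (p:ℝ) ≤ ∑ p ∈ (Finset.Icc 1 ⌊z⌋₊).filter Nat.Prime, (1 : ℝ) / p := by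
      apply Finset.sum_le_sum_of_subset_of_nonneg
      · intro p hp
        rw [hPP] at hp
        unfold PS at hp
        rw [Finset.mem_filter] at hp ⊢
        exact ⟨hp.1, hp.2.1⟩
      · intro p _ _
        positivity
    have h4 : Real.log (Real.log (⌊z⌋₊ : ℝ)) ≤ l := by
      have e1 : (3:ℝ) ≤ (⌊z⌋₊ : ℝ) := by exact_mod_cast hz3
      have e2 : Real.log (⌊z⌋₊ : ℝ) ≤ L := by
        have : Real.log (⌊z⌋₊ : ℝ) ≤ Real.log z :=
          Real.log_le_log (by linarith) (Nat.floor_le hzpos.le)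
        linarith
      rw [hl]
      exact Real.log_le_log (Real.log_pos (by linarith)) e2
    rw [h1]
    have := le_max_left CM₀ 0
    linarith
  have hGn : 0 ≤ ∑ i, g i := Finset.sum_nonneg (fun i _ => (hg0 i).le)
  -- parameters
  set lQ : ℝ := (1 / 2 - ε / 4) * L with hlQ
  have hlQ0 : 0 < lQ := by rw [hlQ]; apply mul_pos _ hL0; linarith
  set Q : ℝ := Real.exp lQ with hQ
  set J : ℕ := 2 * ⌈12 * l⌉₊ with hJ
  have hJ1 : 24 * l ≤ (J:ℝ) := by
    have := Nat.le_ceil (12 * l)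
    rw [hJ]; push_cast; linarith
  have hJ2 : (J:ℝ) ≤ 27 * l := by
    have := Nat.ceil_lt_add_one (show 0 ≤ 12 * l by linarith)
    rw [hJ]; push_cast; linarith
  have hJe : Even J := ⟨⌈12 * l⌉₊, by rw [hJ]; ring⟩
  have hQ1 : 1 ≤ Q := Real.one_le_exp hlQ0.le
  have hQ0 : 0 < Q := by linarith
  have hzJ : z ^ J ≤ Real.exp (ε / 4 * L) := by
    rw [hz, ← Real.exp_nat_mul]
    apply Real.exp_le_exp.mpr
    calc (J:ℝ) * yS ≤ (27 * l) * (c * L / l) :=
          mul_le_mul hJ2 hySc hyS0.le (by linarith)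
      _ = 27 * c * L := by field_simp
      _ ≤ _ := mul_le_mul_of_nonneg_right hc27 hL0.le
  -- sizes of supports
  have hsupp : ∀ D : Col n κ, qq P D ≤ Q → ((supp D).card : ℝ) * (2 * l) ≤ lQ := by
    intro D hD
    have h1 : Real.exp (((supp D).card : ℝ) * (2 * l)) ≤ qq P D := by
      unfold qq
      rw [prod_nu1]
      have : Real.exp (((supp D).card : ℝ) * (2 * l)) = ∏ i ∈ supp D, Real.exp (2 * l) := by
        rw [Finset.prod_const, ← Real.exp_nat_mul]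
      rw [this]
      apply Finset.prod_le_prod
      · intro i _; exact (Real.exp_pos _).le
      · intro i _
        have h2 : Real.exp (2 * l) = w := by
          rw [← hlogw, Real.exp_log hw0]
        rw [h2]
        exact (hPy i).le
    have h2 := h1.trans hD
    rw [hQ] at h2
    exact Real.exp_le_exp.mp h2
  have hδ : ∀ D : Col n κ, qq P D ≤ Q → 2 * ∑ i with D i ≠ none, g i ≤ 1 / L := by
    intro D hD
    have h1 : ∑ i with D i ≠ none, g i ≤ (supp D).card * (1 / w) := by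
      have : ∑ i ∈ supp D, g i ≤ ∑ i ∈ supp D, (1 / w) := Finset.sum_le_sum (fun i _ => hgy i)
      rw [Finset.sum_const, nsmul_eq_mul] at this
      exact this
    have h2 := hsupp D hD
    have h3 : ((supp D).card : ℝ) ≤ L / 2 :=
      Num.a_supp _ l L lQ ε (Nat.cast_nonneg _) f1 hL0 hε hlQ h2
    have h4 : ((supp D).card : ℝ) * (1 / w) ≤ L / 2 * (1 / w) :=
      mul_le_mul_of_nonneg_right h3 (div_nonneg zero_le_one hw0.le)
    have h5 : L / 2 * (1 / w) = 1 / (2 * L) := by rw [hw]; field_simp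
    have h6 : 2 * (1 / (2 * L)) = 1 / L := by field_simp
    rw [← h6]
    linarith
  have hqle : ∀ D : Col n κ, qq P D ≤ Q ^ 2 * z ^ J → qq P D ≤ Real.exp ((1 - ε / 4) * L) := by
    intro D hD
    refine hD.trans ?_
    calc Q ^ 2 * z ^ J ≤ (Real.exp lQ) ^ 2 * Real.exp (ε / 4 * L) :=
          mul_le_mul_of_nonneg_left hzJ (sq_nonneg _)
      _ = Real.exp ((1 - ε / 4) * L) := by
          rw [← Real.exp_nat_mul, ← Real.exp_add]
          congr 1
          rw [hlQ]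
          push_cast
          ring
  set Err : ℝ := Real.exp ((1 - ε / 4) * L) ^ r with hErr
  have hErr0 : 0 ≤ Err := pow_nonneg (Real.exp_pos _).le _
  -- the count
  have hevent : ∀ D : Col n κ, qq P D ≤ Q ^ 2 * z ^ J →
      |((((univ : Finset (Fin r → Fin H)).filter (fun a => ∀ i, D i ≠ none →
        colr PP res (∑ j, ((a j : ℕ) : ℤ)) i = D i)).card : ℝ)) - (H : ℝ) ^ r * nu g D| ≤ Err := by
    intro D hD
    obtain ⟨b, hb⟩ := event_iff hPprime hinj D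
    have h1 : ((univ : Finset (Fin r → Fin H)).filter (fun a => ∀ i, D i ≠ none →
        colr PP res (∑ j, ((a j : ℕ) : ℤ)) i = D i)) =
        (univ : Finset (Fin r → Fin H)).filter
          (fun a => ((qn PP D : ℕ) : ℤ) ∣ (∑ j, ((a j : ℕ) : ℤ)) - b) := by
      apply Finset.filter_congr
      intro a _
      exact hb _
    rw [h1]
    have h2 : nu g D = 1 / ((qn PP D : ℕ) : ℝ) := nu_eq PP D
    rw [h2, mul_one_div]
    have h3 : 0 < qn PP D := Nat.pos_of_ne_zero (qn_squarefree hPprime D).ne_zero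
    refine (card_bound (qn PP D) h3 H r b).trans ?_
    rw [hErr]
    apply pow_le_pow_left₀ (Nat.cast_nonneg _)
    rw [qn_cast]
    exact hqle D hD
  have hn1 : (n:ℝ) + 1 ≤ z := by
    have h1 : PP ⊆ Finset.Icc 2 ⌊z⌋₊ := by
      intro p hp
      have hp' := hp
      rw [hPP] at hp'
      unfold PS at hp'
      rw [Finset.mem_filter, Finset.mem_Icc] at hp'
      rw [Finset.mem_Icc]
      exact ⟨hp'.2.1.two_le, hp'.1.2⟩
    have h2 := Finset.card_le_card h1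
    rw [Nat.card_Icc] at h2
    have h3 : 1 ≤ ⌊z⌋₊ := Nat.le_floor (by push_cast; linarith)
    have h4 : n + 1 ≤ ⌊z⌋₊ := by
      rw [hn]
      omega
    calc (n:ℝ) + 1 ≤ (⌊z⌋₊ : ℝ) := by exact_mod_cast h4
      _ ≤ z := Nat.floor_le hzpos.le
  have hHpos : (0:ℝ) < H := lt_of_lt_of_le (Real.exp_pos _) hH
  have hNpos : (0:ℝ) < (H:ℝ) ^ r := pow_pos hHpos r
  have hi1 : 1 / w ≤ 1 / 9 := one_div_le_one_div_of_le (by norm_num) (by linarith)
  have hi2 : (1:ℝ) / 9 ≤ 1 := by norm_num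
  have hi3 : (L / 4) * (1 / w) = 1 / (4 * L) := by rw [hw]; field_simp
  have hi4 : 1 / (4 * L) ≤ 1 := by rw [div_le_one (by linarith)]; linarith
  have hi5 : u * (1 / L) ≤ 1 / 4 := by
    have h1 : u * (1 / L) ≤ (L / 4) * (1 / L) :=
      mul_le_mul_of_nonneg_right huL (div_nonneg zero_le_one hL0.le)
    have e : (L / 4) * (1 / L) = 1 / 4 := by field_simp
    linarith
  have hi6 : 2 * u * ∑ i, 1 / (P i) ^ 2 ≤ 1 := by
    have h1 : ∑ i, 1 / (P i) ^ 2 ≤ (1 / w) * ∑ i, g i := by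
      rw [Finset.mul_sum]
      apply Finset.sum_le_sum
      intro i _
      have : 1 / (P i) ^ 2 = g i * g i := by rw [hgP]; field_simp
      rw [this]
      exact mul_le_mul_of_nonneg_right (hgy i) (hg0 i).le
    have h2 : (1 / w) * ∑ i, g i ≤ (1 / w) * (2 * L) := by
      apply mul_le_mul_of_nonneg_left _ (div_nonneg zero_le_one hw0.le)
      linarith
    have h3 : (1 / w) * (2 * L) = 2 / L := by rw [hw]; field_simp
    have h4 : 2 * u * ∑ i, 1 / (P i) ^ 2 ≤ 2 * (L / 4) * (2 / L) := by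
      apply mul_le_mul _ (by linarith) (Finset.sum_nonneg (fun i _ => by positivity))
        (by linarith)
      linarith
    have e : 2 * (L / 4) * (2 / L) = 1 := by field_simp; norm_num
    linarith
  have hi7 : (u + 1 : ℝ) * ((1 / L) ^ 2 + Real.exp (η * ((1 + η) * u * K
      - Real.log (Q / z)) / Real.log z)) ≤ 1 / 8 := by
    apply Num.a_tail2 u L l f4 hLexp hu0 huL f1
    rw [Real.log_div hQ0.ne' hzpos.ne', hQ, Real.log_exp, hlogz]
    exact Num.a_tail η c ε L l lQ yS u K hη0 hη hη1 hc hL0 f1 hε1 hlQ hyS0 hySc huK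
  have hi8 : u * (1 / 3) ^ J * Real.exp ((2 + 6 * 3) * ∑ i, g i) ≤ 1 / 8 :=
    Num.a_mom u L l _ J f4 hLexp hu0 huL f1 hJ1 (by linarith)
  have hn0 : (0:ℝ) ≤ (n:ℝ) + 1 := add_nonneg (Nat.cast_nonneg n) zero_le_one
  have hi9 : Err * (9 * Q ^ 4 * (1 + u * ((n:ℝ) + 1) ^ J)) < (H:ℝ) ^ r / 8 :=
    Num.a_fin ε L u lQ ((n:ℝ) + 1) H r J hε f4 hu0 huL
      (by rw [hlQ]; have := mul_pos hε hL0; linarith) hn0
      ((pow_le_pow_left₀ hn0 hn1 J).trans hzJ) hε1 hH hr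
  -- apply the core theorem
  obtain ⟨a, ha, hcov⟩ := core_sharp (κ := κ) (univ : Finset (Fin r → Fin H))
    (fun a => colr PP res (∑ j, ((a j : ℕ) : ℤ))) Hy Q (1 / L) 3 ((H:ℝ) ^ r) Err J hJe (by norm_num)
    hNpos hErr0 hQ1 hPz
    (fun i => (hgy i).trans (hi1.trans hi2))
    (fun i => by
      have := hgy i
      linarith)
    (fun i => by
      have h1 : u * g i ≤ (L / 4) * (1 / w) := mul_le_mul huL (hgy i) (hg0 i).le (by linarith)
      linarith)
    hδ hi5 hi6 η hη0.le (by linarith) hi7 hi8 hevent hi9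
  refine ⟨a, fun k => ?_⟩
  obtain ⟨i, hi⟩ := hcov k
  have h1 := (colr_eq hinj _ i k).mp hi
  have h2 := hPPmem _ (emb_mem PP i)
  refine ⟨emb PP i, h2.1, h2.2.1, ?_, h1⟩
  have h3 : Real.log ((emb PP i : ℕ) : ℝ) ≤ Real.log z :=
    Real.log_le_log (by linarith [h2.2.1]) h2.2.2
  rw [hlogz] at h3
  exact h3.trans (min_le_left _ _)

end Pool.Agent.K4H10.EX
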