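import Pool.Agent.H256R2.SC.Defs

set_option autoImplicit false

/-! # The optimal profile `h s = K / log s` (helper10) -/

namespace Pool.Agent.K4H10.EX

open Finset Pool.Agent.H256R2.SC

open scoped Classical

variable {n : ℕ}

/-- `∑ g(s) / log s` over the nonempty sets `s` of size at most `S` -/
noncomputable def Bsum (p g : Fin n → ℝ) (S : ℝ) : ℝ :=
  ∑ s : Finset (Fin n) with s.Nonempty ∧ ∏ i ∈ s, p i ≤ S,
    (∏ i ∈ s, g i) / Real.log (∏ i ∈ s, p i)

/-- the profile -/
noncomputable def prof (p : Fin n → ℝ) (S K : ℝ) (s : Finset (Fin n)) : ℝ :=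
  if s.Nonempty ∧ ∏ i ∈ s, p i ≤ S then K / Real.log (∏ i ∈ s, p i) else 0

theorem prod_gt_one {p : Fin n → ℝ} (hp : ∀ i, 1 < p i) {s : Finset (Fin n)} (hs : s.Nonempty) :
    1 < ∏ i ∈ s, p i := by
  obtain ⟨i, hi⟩ := hs
  have h1 : ∀ j ∈ s.erase i, 1 ≤ p j := fun j _ => (hp j).le
  have h2 : 1 ≤ ∏ j ∈ s.erase i, p j :=
    Finset.prod_induction _ (fun x => 1 ≤ x) (fun _ _ ha hb => one_le_mul_of_one_le_of_one_le ha hb)
      le_rfl h1
  rw [← Finset.mul_prod_erase s p hi]
  nlinarith [hp i]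

theorem prod_mono {p : Fin n → ℝ} (hp : ∀ i, 1 < p i) {s t : Finset (Fin n)} (h : s ⊆ t) :
    ∏ i ∈ s, p i ≤ ∏ i ∈ t, p i := by
  have h1 : ∏ i ∈ t, p i = (∏ i ∈ t \ s, p i) * ∏ i ∈ s, p i := by
    rw [Finset.prod_sdiff h]
  rw [h1]
  have h2 : 1 ≤ ∏ j ∈ t \ s, p j :=
    Finset.prod_induction _ (fun x => 1 ≤ x) (fun _ _ ha hb => one_le_mul_of_one_le_of_one_le ha hb)
      le_rfl (fun j _ => (hp j).le)
  have h3 : 0 ≤ ∏ i ∈ s, p i := Finset.prod_nonneg fun i _ => by linarith [hp i]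
  nlinarith

theorem hyp_prof (p g : Fin n → ℝ) (hp : ∀ i, 1 < p i) (hg : ∀ i, 0 < g i) (S : ℝ) (hS : 1 < S)
    (hB : 0 < Bsum p g S) (hK : ∀ i, 1 / Bsum p g S ≤ Real.log (p i)) :
    Hyp p g (prof p S (1 / Bsum p g S)) S (1 / Bsum p g S) := by
  set K := 1 / Bsum p g S with hKdef
  have hK0 : 0 < K := by positivity
  have hlog : ∀ s : Finset (Fin n), s.Nonempty → 0 < Real.log (∏ i ∈ s, p i) := fun s hs =>
    Real.log_pos (prod_gt_one hp hs)
  have hKB : K * Bsum p g S = 1 := by rw [hKdef]; field_simp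
  refine ⟨hp, hg, hS, hK0.le, ?_, ?_, ?_, ?_, ?_, ?_⟩
  · intro s
    unfold prof
    split_ifs with h
    · exact div_nonneg hK0.le (hlog s h.1).le
    · exact le_rfl
  · intro s
    unfold prof
    split_ifs with h
    · rw [div_le_one (hlog s h.1)]
      obtain ⟨i, hi⟩ := h.1
      refine (hK i).trans ?_
      apply Real.log_le_log (by linarith [hp i])
      have := prod_mono hp (Finset.singleton_subset_iff.mpr hi)
      simpa using this
    · norm_num
  · intro s t hs hst
    unfold prof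
    by_cases h : t.Nonempty ∧ ∏ i ∈ t, p i ≤ S
    · have h1 := prod_mono hp hst
      rw [if_pos h, if_pos ⟨hs, h1.trans h.2⟩]
      exact div_le_div_of_nonneg_left hK0.le (hlog s hs)
        (Real.log_le_log (by linarith [prod_gt_one hp hs]) h1)
    · rw [if_neg h]
      split_ifs
      · exact div_nonneg hK0.le (hlog s hs).le
      · exact le_rfl
  · intro s hs
    unfold prof at hs
    by_contra h
    apply hs
    rw [if_neg]
    exact fun h2 => h h2.2
  · rw [← hKB]
    unfold Bsum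
    rw [Finset.mul_sum, Finset.sum_filter, Finset.sum_filter]
    refine Finset.sum_congr rfl fun s _ => ?_
    unfold prof
    by_cases h1 : s.Nonempty
    · by_cases h2 : ∏ i ∈ s, p i ≤ S
      · rw [if_pos h1, if_pos ⟨h1, h2⟩, if_pos ⟨h1, h2⟩]; ring
      · rw [if_pos h1, if_neg (fun h => h2 h.2), if_neg (fun h => h2 h.2)]; ring
    · rw [if_neg h1, if_neg (fun h => h1 h.1)]
  · have h1 : ∑ s : Finset (Fin n) with s.Nonempty,
        (prof p S K s) ^ 2 * (∏ i ∈ s, g i) * Real.log (∏ i ∈ s, p i) = K * (K * Bsum p g S) := by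
      unfold Bsum
      rw [Finset.mul_sum, Finset.mul_sum, Finset.sum_filter, Finset.sum_filter]
      refine Finset.sum_congr rfl fun s _ => ?_
      unfold prof
      by_cases h1 : s.Nonempty
      · have h3 := (hlog s h1).ne'
        by_cases h2 : ∏ i ∈ s, p i ≤ S
        · rw [if_pos h1, if_pos ⟨h1, h2⟩, if_pos ⟨h1, h2⟩]
          field_simp
        · rw [if_pos h1, if_neg (fun h => h2 h.2), if_neg (fun h => h2 h.2)]; ring
      · rw [if_neg h1, if_neg (fun h => h1 h.1)]
    rw [h1, hKB, mul_one]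

/-- telescoping -/
theorem tele (η t y0 : ℝ) (hη : 0 < η) (ht : 0 < t) (hy : 0 < y0) (J : ℕ) :
    ∑ j ∈ Finset.range J, (if t ≤ (1 + η) ^ j * y0 then
      (η / (1 + η)) / ((1 + η) ^ j * y0) else 0) ≤ 1 / t - 1 / max t ((1 + η) ^ J * y0) := by
  induction J with
  | zero =>
    simp only [Finset.range_zero, Finset.sum_empty, sub_nonneg]
    exact one_div_le_one_div_of_le ht (le_max_left _ _)
  | succ J ih =>
    rw [Finset.sum_range_succ]
    set y := (1 + η) ^ J * y0 with hyd
    have hy0 : 0 < y := by positivity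
    have h1 : (1 + η) ^ (J + 1) * y0 = (1 + η) * y := by rw [hyd]; ring
    rw [h1]
    by_cases h : t ≤ y
    · rw [if_pos h]
      rw [max_eq_right h] at ih
      have h2 : t ≤ (1 + η) * y := by nlinarith
      rw [max_eq_right h2]
      have h3 : 1 / y - 1 / ((1 + η) * y) = η / (1 + η) / y := by
        field_simp
        ring
      linarith
    · rw [if_neg h, add_zero]
      push Not at h
      rw [max_eq_left h.le, sub_self] at ih
      refine ih.trans ?_
      rw [sub_nonneg]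
      exact one_div_le_one_div_of_le ht (le_max_left _ _)

/-- lower bound for `Bsum` from lower bounds for `Asum` -/
theorem Bsum_lower (p g : Fin n → ℝ) (hp : ∀ i, 1 < p i) (hg : ∀ i, 0 < g i) (S : ℝ) (hS : 1 < S)
    (a η y0 : ℝ) (hη : 0 < η) (hy : 0 < y0) (J : ℕ)
    (hJ : ∀ j < J, (1 + η) ^ j * y0 ≤ Real.log S)
    (hA : ∀ j < J, a * ((1 + η) ^ j * y0) - 1 ≤ Asum p g (Real.exp ((1 + η) ^ j * y0))) :
    η / (1 + η) * (a * J) - 1 / y0 ≤ Bsum p g S := by
  have hlog : ∀ s : Finset (Fin n), s.Nonempty → 0 < Real.log (∏ i ∈ s, p i) := fun s hs =>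
    Real.log_pos (prod_gt_one hp hs)
  have hS0 : 0 < S := by linarith
  -- the main inequality
  have h1 : ∑ j ∈ Finset.range J, (η / (1 + η)) / ((1 + η) ^ j * y0) *
      Asum p g (Real.exp ((1 + η) ^ j * y0)) ≤ Bsum p g S := by
    unfold Asum Bsum
    simp_rw [Finset.mul_sum, Finset.sum_filter]
    rw [Finset.sum_comm]
    refine Finset.sum_le_sum fun s _ => ?_
    by_cases hs : s.Nonempty
    · have hl := hlog s hs
      have hP := prod_gt_one hp hs
      have hgs : 0 ≤ ∏ i ∈ s, g i := Finset.prod_nonneg fun i _ => (hg i).le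
      have h2 : ∀ j ∈ Finset.range J, (if s.Nonempty ∧ ∏ i ∈ s, p i ≤ Real.exp ((1 + η) ^ j * y0)
          then η / (1 + η) / ((1 + η) ^ j * y0) * ∏ i ∈ s, g i else 0) =
          (if Real.log (∏ i ∈ s, p i) ≤ (1 + η) ^ j * y0 then
            (η / (1 + η)) / ((1 + η) ^ j * y0) else 0) * ∏ i ∈ s, g i := by
        intro j _
        have e : (s.Nonempty ∧ ∏ i ∈ s, p i ≤ Real.exp ((1 + η) ^ j * y0)) ↔
            Real.log (∏ i ∈ s, p i) ≤ (1 + η) ^ j * y0 := by
          rw [Real.log_le_iff_le_exp (by linarith)]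
          exact ⟨fun h => h.2, fun h => ⟨hs, h⟩⟩
        by_cases h3 : Real.log (∏ i ∈ s, p i) ≤ (1 + η) ^ j * y0
        · rw [if_pos (e.mpr h3), if_pos h3]
        · rw [if_neg (fun h => h3 (e.mp h)), if_neg h3, zero_mul]
      rw [Finset.sum_congr rfl h2, ← Finset.sum_mul]
      by_cases h3 : ∏ i ∈ s, p i ≤ S
      · rw [if_pos ⟨hs, h3⟩]
        have h4 := tele η _ y0 hη hl hy J
        have h5 : (0:ℝ) ≤ 1 / max (Real.log (∏ i ∈ s, p i)) ((1 + η) ^ J * y0) := by positivity
        calc _ ≤ 1 / Real.log (∏ i ∈ s, p i) * ∏ i ∈ s, g i :=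
              mul_le_mul_of_nonneg_right (by linarith) hgs
          _ = _ := by ring
      · rw [if_neg (fun h => h3 h.2)]
        have h6 : ∀ j ∈ Finset.range J, (if Real.log (∏ i ∈ s, p i) ≤ (1 + η) ^ j * y0 then
            (η / (1 + η)) / ((1 + η) ^ j * y0) else 0) = 0 := by
          intro j hj
          rw [if_neg]
          intro h7
          have h8 := h7.trans (hJ j (Finset.mem_range.mp hj))
          exact h3 ((Real.log_le_log_iff (by linarith) hS0).mp h8)
        rw [Finset.sum_eq_zero h6, zero_mul]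
    · rw [Finset.sum_eq_zero]
      · rw [if_neg (fun h => hs h.1)]
      · intro j _
        rw [if_neg (fun h => hs h.1)]
  refine le_trans ?_ h1
  have h2 : ∀ j ∈ Finset.range J, η / (1 + η) * a - (η / (1 + η)) / ((1 + η) ^ j * y0) ≤
      (η / (1 + η)) / ((1 + η) ^ j * y0) * Asum p g (Real.exp ((1 + η) ^ j * y0)) := by
    intro j hj
    have h3 := hA j (Finset.mem_range.mp hj)
    have h4 : 0 < (1 + η) ^ j * y0 := by positivity
    have h5 : 0 ≤ (η / (1 + η)) / ((1 + η) ^ j * y0) := by positivity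
    calc η / (1 + η) * a - (η / (1 + η)) / ((1 + η) ^ j * y0)
        = (η / (1 + η)) / ((1 + η) ^ j * y0) * (a * ((1 + η) ^ j * y0) - 1) := by
          field_simp
      _ ≤ _ := mul_le_mul_of_nonneg_left h3 h5
  refine le_trans ?_ (Finset.sum_le_sum h2)
  rw [Finset.sum_sub_distrib, Finset.sum_const, Finset.card_range, nsmul_eq_mul]
  have h3 : ∑ j ∈ Finset.range J, (η / (1 + η)) / ((1 + η) ^ j * y0) ≤ 1 / y0 := by
    have h4 : ∀ J : ℕ, ∑ j ∈ Finset.range J, (η / (1 + η)) / ((1 + η) ^ j * y0) =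
        1 / y0 - 1 / ((1 + η) ^ J * y0) := by
      intro J
      induction J with
      | zero => simp
      | succ J ih =>
        rw [Finset.sum_range_succ, ih, pow_succ]
        field_simp
        ring
    rw [h4]
    have : (0:ℝ) ≤ 1 / ((1 + η) ^ J * y0) := by positivity
    linarith
  nlinarith

end Pool.Agent.K4H10.EX
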