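import Pool.Agent.H256R2.SC.L

set_option autoImplicit false

/-! # Sharp lower bound for the sums over rough squarefree numbers (helper10)

A variant of Pool.Agent.H256R2.SC.L with the sharp constant. -/

namespace Pool.Agent.K4H10.EX

open Finset Pool.Agent.H256R2.SC

open scoped Classical

/-- the Mertens product `∏_{p ≤ w} (1 - 1/p)⁻¹` -/
noncomputable def MP (w : ℝ) : ℝ := ∏ p ∈ Finset.Icc 1 ⌊w⌋₊ with p.Prime, (1 - (p : ℝ)⁻¹)⁻¹

theorem decomp' (P : Finset ℕ) (m : ℕ) (hm : 1 ≤ m) : ∃ a l : ℕ, ∃ s : Finset ℕ,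
    a ∈ Nat.factoredNumbers P ∧ 1 ≤ a ∧ 1 ≤ l ∧ (∀ q : ℕ, q.Prime → q ∣ l → q ∉ P) ∧
    (∀ p ∈ s, p.Prime ∧ p ∉ P) ∧ m = a * l ^ 2 * ∏ p ∈ s, p := by
  set a := ∏ p ∈ m.primeFactors with p ∈ P, p ^ (m.factorization p) with ha
  set b := ∏ p ∈ m.primeFactors with ¬ (p ∈ P), p ^ (m.factorization p) with hb
  have hab : a * b = m := by
    rw [ha, hb, Finset.prod_filter_mul_prod_filter_not]
    exact Nat.prod_factorization_pow_eq_self (by omega)
  have ha0 : a ≠ 0 := by rintro h; rw [h, zero_mul] at hab; omega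
  have hb0 : b ≠ 0 := by rintro h; rw [h, mul_zero] at hab; omega
  have haP : a ∈ Nat.factoredNumbers P := by
    rw [Nat.mem_factoredNumbers']
    intro q hq hqa
    rw [ha, Prime.dvd_finsetProd_iff hq.prime] at hqa
    obtain ⟨p, hp, hqp⟩ := hqa
    rw [Finset.mem_filter, Nat.mem_primeFactors] at hp
    have := (Nat.prime_dvd_prime_iff_eq hq hp.1.1).1 (hq.dvd_of_dvd_pow hqp)
    rw [this]; exact hp.2
  have hbP : ∀ q : ℕ, q.Prime → q ∣ b → q ∉ P := by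
    intro q hq hqb
    rw [hb, Prime.dvd_finsetProd_iff hq.prime] at hqb
    obtain ⟨p, hp, hqp⟩ := hqb
    rw [Finset.mem_filter, Nat.mem_primeFactors] at hp
    have := (Nat.prime_dvd_prime_iff_eq hq hp.1.1).1 (hq.dvd_of_dvd_pow hqp)
    rw [this]; exact hp.2
  obtain ⟨s', l, hl, hs'⟩ := Nat.sq_mul_squarefree b
  have hl0 : l ≠ 0 := by rintro h; rw [h] at hl; simp at hl; exact hb0 hl.symm
  refine ⟨a, l, s'.primeFactors, haP, Nat.pos_of_ne_zero ha0, Nat.pos_of_ne_zero hl0, ?_, ?_, ?_⟩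
  · intro q hq hql
    apply hbP q hq
    rw [← hl]
    exact Dvd.dvd.mul_right (dvd_pow hql (by norm_num)) _
  · intro p hp
    rw [Nat.mem_primeFactors] at hp
    exact ⟨hp.1, hbP p hp.1 (hp.2.1.trans ⟨l ^ 2, by rw [← hl]; ring⟩)⟩
  · rw [Nat.prod_primeFactors_of_squarefree hs', mul_assoc, hl, hab]

theorem sum_sq_tail (a N : ℕ) (ha : 1 ≤ a) :
    ∑ l ∈ (Finset.Icc 1 N).filter (fun l => l = 1 ∨ a < l), ((l : ℝ) ^ 2)⁻¹ ≤ 1 + 1 / a := by
  have h : ∀ N : ℕ, ∑ l ∈ Finset.Ioc a N, ((l : ℝ) ^ 2)⁻¹ ≤ 1 / a := by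
    have h2 : ∀ N : ℕ, a ≤ N → ∑ l ∈ Finset.Ioc a N, ((l : ℝ) ^ 2)⁻¹ ≤ 1 / a - 1 / N := by
      intro N hN
      induction N, hN using Nat.le_induction with
      | base => simp
      | succ n hn ih =>
        rw [Finset.sum_Ioc_succ_top (by omega)]
        have hn' : (1 : ℝ) ≤ n := by exact_mod_cast ha.trans hn
        have : (((n + 1 : ℕ) : ℝ) ^ 2)⁻¹ ≤ 1 / n - 1 / ((n + 1 : ℕ) : ℝ) := by
          push_cast
          rw [div_sub_div _ _ (by positivity) (by positivity), inv_eq_one_div,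
            div_le_div_iff₀ (by positivity) (by positivity)]
          nlinarith
        linarith
    intro N
    rcases le_or_gt a N with h3 | h3
    · have := h2 N h3
      have h4 : (0:ℝ) ≤ 1 / N := by positivity
      linarith
    · rw [Finset.Ioc_eq_empty (by omega)]
      simp
  calc ∑ l ∈ (Finset.Icc 1 N).filter (fun l => l = 1 ∨ a < l), ((l : ℝ) ^ 2)⁻¹
      ≤ ∑ l ∈ insert 1 (Finset.Ioc a N), ((l : ℝ) ^ 2)⁻¹ := by
        apply Finset.sum_le_sum_of_subset_of_nonneg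
        · intro l hl
          rw [Finset.mem_filter, Finset.mem_Icc] at hl
          rw [Finset.mem_insert, Finset.mem_Ioc]
          rcases hl.2 with h1 | h1
          · exact Or.inl h1
          · exact Or.inr ⟨h1, hl.1.2⟩
        · intro l _ _; positivity
    _ ≤ 1 + ∑ l ∈ Finset.Ioc a N, ((l : ℝ) ^ 2)⁻¹ := by
        by_cases h1 : 1 ∈ Finset.Ioc a N
        · rw [Finset.insert_eq_of_mem h1]; linarith
        · rw [Finset.sum_insert h1]; simp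
    _ ≤ _ := by linarith [h N]

/-- the combinatorial inequality -/
theorem main_ineq' (w z x : ℝ) (hw : 2 ≤ w) (hxz : x ≤ z) (hx : 1 ≤ x) :
    ∑ m ∈ Finset.Icc 1 ⌊x⌋₊, (m : ℝ)⁻¹ ≤ MP w * (1 + 2 / w) *
      (1 + ∑ s ∈ ((PS w z ∅).powerset.filter
        (fun s : Finset ℕ => s.Nonempty ∧ ∏ p ∈ s, (p : ℝ) ≤ x)), ∏ p ∈ s, 1 / (p : ℝ)) := by
  set P : Finset ℕ := Finset.Icc 1 ⌊w⌋₊ with hPdef
  have hP : ∀ p : ℕ, p.Prime → p ∉ P → w < (p : ℝ) := by
    intro p hp hpP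
    by_contra h
    push Not at h
    exact hpP (by rw [hPdef, Finset.mem_Icc]; exact ⟨hp.one_lt.le, Nat.le_floor h⟩)
  have hdec : ∀ m : ℕ, ∃ t : ℕ × ℕ × Finset ℕ, 1 ≤ m → (t.1 ∈ Nat.factoredNumbers P ∧ 1 ≤ t.1 ∧
      1 ≤ t.2.1 ∧ (∀ q : ℕ, q.Prime → q ∣ t.2.1 → q ∉ P) ∧
      (∀ p ∈ t.2.2, p.Prime ∧ p ∉ P) ∧ m = t.1 * t.2.1 ^ 2 * ∏ p ∈ t.2.2, p) := by
    intro m
    by_cases hm : 1 ≤ m
    · obtain ⟨a, l, s, h⟩ := decomp' P m hm
      exact ⟨(a, l, s), fun _ => h⟩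
    · exact ⟨(0, 0, ∅), fun h => absurd h hm⟩
  choose φ hφ using hdec
  set N := ⌊x⌋₊ with hN
  set a₀ : ℕ := ⌊w⌋₊ with ha₀
  have ha₀1 : 1 ≤ a₀ := Nat.le_floor (by push_cast; linarith)
  have ha₀2 : w / 2 ≤ a₀ := by
    have := Nat.lt_floor_add_one w
    rw [← ha₀] at this
    linarith
  set A : Finset ℕ := (Finset.Icc 1 N).filter (fun a => a ∈ Nat.factoredNumbers P) with hA
  set LL : Finset ℕ := (Finset.Icc 1 N).filter (fun l => l = 1 ∨ a₀ < l) with hLL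
  set W : Finset (Finset ℕ) := (PS w z ∅).powerset.filter
    (fun s : Finset ℕ => ∏ p ∈ s, (p : ℝ) ≤ x) with hW
  set F : ℕ × ℕ × Finset ℕ → ℝ := fun t => (t.1 : ℝ)⁻¹ * ((((t.2.1 : ℕ) : ℝ) ^ 2)⁻¹ *
    ∏ p ∈ t.2.2, 1 / (p : ℝ)) with hF
  have hprod : ∀ m ∈ Finset.Icc 1 N, ∏ p ∈ (φ m).2.2, p ∣ m := by
    intro m hm
    rw [Finset.mem_Icc] at hm
    obtain ⟨_, _, _, _, _, h5⟩ := hφ m hm.1
    exact ⟨(φ m).1 * (φ m).2.1 ^ 2, by conv_lhs => rw [h5]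
                                       ring⟩
  have h1 : ∑ m ∈ Finset.Icc 1 N, (m : ℝ)⁻¹ = ∑ m ∈ Finset.Icc 1 N, F (φ m) := by
    refine Finset.sum_congr rfl fun m hm => ?_
    rw [Finset.mem_Icc] at hm
    obtain ⟨_, _, _, _, _, h5⟩ := hφ m hm.1
    conv_lhs => rw [h5]
    rw [hF]
    push_cast
    simp only [one_div, Finset.prod_inv_distrib]
    rw [mul_inv, mul_inv, mul_assoc]
  have hinj : ∀ m ∈ Finset.Icc 1 N, ∀ m' ∈ Finset.Icc 1 N, φ m = φ m' → m = m' := by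
    intro m hm m' hm' h
    rw [Finset.mem_Icc] at hm hm'
    rw [(hφ m hm.1).2.2.2.2.2, (hφ m' hm'.1).2.2.2.2.2, h]
  have h2 : ∑ m ∈ Finset.Icc 1 N, F (φ m) = ∑ t ∈ (Finset.Icc 1 N).image φ, F t :=
    (Finset.sum_image (fun m hm m' hm' h => hinj m hm m' hm' h)).symm
  have hsub : (Finset.Icc 1 N).image φ ⊆ A ×ˢ (LL ×ˢ W) := by
    intro t ht
    rw [Finset.mem_image] at ht
    obtain ⟨m, hm, rfl⟩ := ht
    have hmm := hm
    rw [Finset.mem_Icc] at hm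
    obtain ⟨g1, g2, g3, g6, g4, g5⟩ := hφ m hm.1
    have hmx : (m : ℝ) ≤ x := (Nat.le_floor_iff (by linarith)).1 hm.2
    have d1 : (φ m).1 ∣ m := ⟨(φ m).2.1 ^ 2 * ∏ p ∈ (φ m).2.2, p, by conv_lhs => rw [g5]
                                                                     ring⟩
    have d2 : (φ m).2.1 ∣ m := ⟨(φ m).1 * (φ m).2.1 * ∏ p ∈ (φ m).2.2, p, by conv_lhs => rw [g5]
                                                                             ring⟩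
    rw [Finset.mem_product, Finset.mem_product, hA, Finset.mem_filter, Finset.mem_Icc, hLL,
      Finset.mem_filter, Finset.mem_Icc, hW, Finset.mem_filter, Finset.mem_powerset]
    refine ⟨⟨⟨g2, (Nat.le_of_dvd hm.1 d1).trans hm.2⟩, g1⟩,
      ⟨⟨g3, (Nat.le_of_dvd hm.1 d2).trans hm.2⟩, ?_⟩, ?_, ?_⟩
    · by_contra hc
      push Not at hc
      obtain ⟨q, hq, hql⟩ := Nat.exists_prime_and_dvd hc.1
      apply g6 q hq hql
      rw [hPdef, Finset.mem_Icc]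
      exact ⟨hq.one_lt.le, (Nat.le_of_dvd g3 hql).trans hc.2⟩
    · intro p hp
      obtain ⟨hpp, hpP⟩ := g4 p hp
      have q1 := hP p hpp hpP
      have hpm : p ≤ m := Nat.le_of_dvd hm.1 ((Finset.dvd_prod_of_mem _ hp).trans (hprod m hmm))
      rw [PS, Finset.mem_filter, Finset.mem_Icc]
      refine ⟨⟨hpp.one_lt.le, Nat.le_floor ?_⟩, hpp, q1, by simp⟩
      have : (p : ℝ) ≤ m := by exact_mod_cast hpm
      linarith
    · have : ((∏ p ∈ (φ m).2.2, p : ℕ) : ℝ) ≤ m := by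
        exact_mod_cast Nat.le_of_dvd hm.1 (hprod m hmm)
      push_cast at this
      linarith
  have h3 : ∑ t ∈ (Finset.Icc 1 N).image φ, F t ≤ ∑ t ∈ A ×ˢ (LL ×ˢ W), F t := by
    refine Finset.sum_le_sum_of_subset_of_nonneg hsub fun t _ _ => ?_
    rw [hF]; positivity
  have h4 : ∑ t ∈ A ×ˢ (LL ×ˢ W), F t =
      (∑ a ∈ A, (a : ℝ)⁻¹) * ((∑ l ∈ LL, ((l : ℝ) ^ 2)⁻¹) *
        ∑ s ∈ W, ∏ p ∈ s, 1 / (p : ℝ)) := by
    rw [Finset.sum_product, Finset.sum_mul]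
    refine Finset.sum_congr rfl fun a _ => ?_
    rw [Finset.sum_product, Finset.sum_mul, Finset.mul_sum]
    refine Finset.sum_congr rfl fun l _ => ?_
    rw [Finset.mul_sum, Finset.mul_sum]
  have h5 : ∑ s ∈ W, ∏ p ∈ s, 1 / (p : ℝ) = 1 + ∑ s ∈ ((PS w z ∅).powerset.filter
        (fun s : Finset ℕ => s.Nonempty ∧ ∏ p ∈ s, (p : ℝ) ≤ x)), ∏ p ∈ s, 1 / (p : ℝ) := by
    have he : W = insert ∅ ((PS w z ∅).powerset.filter
        (fun s : Finset ℕ => s.Nonempty ∧ ∏ p ∈ s, (p : ℝ) ≤ x)) := by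
      ext s
      rw [hW, Finset.mem_insert, Finset.mem_filter, Finset.mem_filter, Finset.mem_powerset]
      constructor
      · rintro ⟨a1, a2⟩
        rcases Finset.eq_empty_or_nonempty s with h | h
        · exact Or.inl h
        · exact Or.inr ⟨a1, h, a2⟩
      · rintro (rfl | ⟨a1, _, a2⟩)
        · simpa using hx
        · exact ⟨a1, a2⟩
    rw [he, Finset.sum_insert (by simp)]
    simp
  have h6 : 0 ≤ ∑ s ∈ W, ∏ p ∈ s, 1 / (p : ℝ) := Finset.sum_nonneg fun s _ => by positivity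
  have h7 : ∑ a ∈ A, (a : ℝ)⁻¹ ≤ MP w :=
    Pool.Agent.H256R2.SC.LL.euler_le P A fun a ha => (Finset.mem_filter.1 ha).2
  have h8 : 0 ≤ ∑ a ∈ A, (a : ℝ)⁻¹ := Finset.sum_nonneg fun s _ => by positivity
  have h9 : ∑ l ∈ LL, ((l : ℝ) ^ 2)⁻¹ ≤ 1 + 2 / w := by
    refine (sum_sq_tail a₀ N ha₀1).trans ?_
    have : 1 / (a₀ : ℝ) ≤ 2 / w := by
      rw [div_le_div_iff₀ (by exact_mod_cast ha₀1) (by linarith)]
      linarith
    linarith
  rw [h1, h2]
  refine h3.trans ?_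
  rw [h4, h5, mul_assoc]
  rw [h5] at h6
  refine mul_le_mul h7 (mul_le_mul_of_nonneg_right h9 h6) ?_ (h8.trans h7)
  exact mul_nonneg (Finset.sum_nonneg fun s _ => by positivity) h6

theorem MP_pos (w : ℝ) : 0 < MP w := by
  unfold MP
  exact Finset.prod_pos fun p hp => LL.fac_pos p (Finset.mem_filter.1 hp).2

/-- lower bound for the sums over the squarefree numbers up to `x` composed of primes in `(w, z]` -/
theorem rough_lower (w z x : ℝ) (hw : 2 ≤ w) (hxz : x ≤ z) (hx : 1 ≤ x) :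
    (1 - 2 / w) / MP w * Real.log x - 1 ≤
      ∑ s ∈ ((PS w z ∅).powerset.filter
        (fun s : Finset ℕ => s.Nonempty ∧ ∏ p ∈ s, (p : ℝ) ≤ x)), ∏ p ∈ s, 1 / (p : ℝ) := by
  have h1 := (LL.harm x hx).trans (main_ineq' w z x hw hxz hx)
  set R := ∑ s ∈ ((PS w z ∅).powerset.filter
        (fun s : Finset ℕ => s.Nonempty ∧ ∏ p ∈ s, (p : ℝ) ≤ x)), ∏ p ∈ s, 1 / (p : ℝ) with hR
  have hR0 : 0 ≤ R := Finset.sum_nonneg fun s _ => by positivity
  have hM := MP_pos w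
  have h2w : 0 ≤ 1 - 2 / w := by
    rw [sub_nonneg, div_le_one (by linarith)]; exact hw
  have h3 : (1 - 2 / w) * Real.log x ≤ MP w * (1 + R) := by
    calc (1 - 2 / w) * Real.log x ≤ (1 - 2 / w) * (MP w * (1 + 2 / w) * (1 + R)) :=
          mul_le_mul_of_nonneg_left h1 h2w
      _ = (1 - (2 / w) ^ 2) * (MP w * (1 + R)) := by ring
      _ ≤ 1 * (MP w * (1 + R)) := by
          apply mul_le_mul_of_nonneg_right _ (by positivity)
          nlinarith [sq_nonneg (2 / w)]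
      _ = _ := one_mul _
  have h4 : (1 - 2 / w) / MP w * Real.log x ≤ 1 + R := by
    rw [div_mul_eq_mul_div, div_le_iff₀ hM]
    linarith
  linarith

end Pool.Agent.K4H10.EX
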