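import Mathlib

set_option autoImplicit false

/-! # Sums of several integers in residue classes (helper10)

The number of `a ∈ [0, H)^r` with `a_1 + ... + a_r ≡ b (mod q)` is `H^r / q + O(q^r)`. -/

namespace Pool.Agent.K4H10.EX

open Finset

open scoped Classical

/-- exactly one of `q` consecutive integers is divisible by `q` -/
theorem one_hit (q : ℕ) (hq : 0 < q) (y : ℤ) :
    ∑ t ∈ Finset.range q, (if (q : ℤ) ∣ y + t then (1 : ℝ) else 0) = 1 := by
  have hq' : (0:ℤ) < q := by exact_mod_cast hq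
  set t₀ : ℕ := ((-y) % q).toNat with ht₀
  have h1 : ((t₀ : ℕ) : ℤ) = (-y) % q := Int.toNat_of_nonneg (Int.emod_nonneg _ hq'.ne')
  have h2 : t₀ < q := by
    have := Int.emod_lt_of_pos (-y) hq'
    omega
  rw [Finset.sum_eq_single t₀]
  · rw [if_pos]
    rw [h1]
    have : y + (-y) % q = -(q * ((-y) / q)) := by
      have := Int.emod_add_mul_ediv (-y) q
      linarith
    rw [this]
    exact (Dvd.intro _ rfl).neg_right
  · intro t ht hne
    rw [if_neg]
    intro hd
    apply hne
    rw [Finset.mem_range] at ht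
    have h3 : (q : ℤ) ∣ (-y) - t := by
      have := hd.neg_right
      rwa [neg_add, ← sub_eq_add_neg] at this
    have h4 : (-y) % q = (t : ℤ) % q := (Int.modEq_iff_dvd.mpr h3).symm
    have h5 : (t : ℤ) % q = t := Int.emod_eq_of_lt (by positivity) (by exact_mod_cast ht)
    rw [h5] at h4
    have : ((t₀ : ℕ) : ℤ) = t := by rw [h1, h4]
    exact_mod_cast this.symm
  · intro h
    exact absurd (Finset.mem_range.mpr h2) h

/-- sums of a function all of whose sums over `q` consecutive integers vanish -/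
theorem per_bound (q : ℕ) (hq : 0 < q) (f : ℤ → ℝ) (B : ℝ) (hB : ∀ c, |f c| ≤ B)
    (hz : ∀ c : ℤ, ∑ t ∈ Finset.range q, f (c - t) = 0) (H : ℕ) (b : ℤ) :
    |∑ t ∈ Finset.range H, f (b - t)| ≤ q * B := by
  have hB0 : 0 ≤ B := (abs_nonneg _).trans (hB 0)
  induction H using Nat.strong_induction_on generalizing b with
  | _ H ih =>
    rcases lt_or_ge H q with h | h
    · calc |∑ t ∈ Finset.range H, f (b - t)| ≤ ∑ t ∈ Finset.range H, |f (b - t)| :=
            Finset.abs_sum_le_sum_abs _ _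
        _ ≤ ∑ t ∈ Finset.range H, B := Finset.sum_le_sum fun t _ => hB _
        _ = H * B := by rw [Finset.sum_const, Finset.card_range, nsmul_eq_mul]
        _ ≤ q * B := by
            apply mul_le_mul_of_nonneg_right _ hB0
            exact_mod_cast h.le
    · obtain ⟨m, rfl⟩ := Nat.exists_eq_add_of_le h
      rw [Finset.sum_range_add]
      rw [hz b, zero_add]
      have h1 := ih m (by omega) (b - q)
      have h2 : ∑ t ∈ Finset.range m, f (b - ((q + t : ℕ) : ℤ)) =
          ∑ t ∈ Finset.range m, f (b - q - t) := by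
        refine Finset.sum_congr rfl fun t _ => ?_
        congr 1
        push_cast
        ring
      rw [h2]
      exact h1

/-- number of tuples with sum in a residue class -/
noncomputable def cnt (q H r : ℕ) (b : ℤ) : ℝ :=
  ∑ a : Fin r → Fin H, (if (q : ℤ) ∣ (∑ i, ((a i : ℕ) : ℤ)) - b then (1 : ℝ) else 0)

theorem cnt_succ (q H r : ℕ) (b : ℤ) :
    cnt q H (r + 1) b = ∑ t ∈ Finset.range H, cnt q H r (b - t) := by
  unfold cnt
  rw [← (Fin.consEquiv (fun _ : Fin (r + 1) => Fin H)).sum_comp, Fintype.sum_prod_type]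
  rw [← Fin.sum_univ_eq_sum_range (fun t => ∑ a : Fin r → Fin H,
    (if (q : ℤ) ∣ (∑ i, ((a i : ℕ) : ℤ)) - (b - (t : ℤ)) then (1 : ℝ) else 0)) H]
  refine Finset.sum_congr rfl fun t _ => Finset.sum_congr rfl fun a _ => ?_
  have h1 : (∑ i, (((Fin.consEquiv (fun _ : Fin (r + 1) => Fin H)) (t, a) i : ℕ) : ℤ)) - b =
      (∑ i, ((a i : ℕ) : ℤ)) - (b - ((t : ℕ) : ℤ)) := by
    rw [Fin.sum_univ_succ]
    simp [Fin.consEquiv]
    ring
  rw [h1]

theorem cnt_total (q : ℕ) (hq : 0 < q) (H r : ℕ) (c : ℤ) :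
    ∑ t ∈ Finset.range q, cnt q H r (c - t) = (H : ℝ) ^ r := by
  unfold cnt
  rw [Finset.sum_comm]
  have h1 : ∀ a : Fin r → Fin H, ∑ t ∈ Finset.range q,
      (if (q : ℤ) ∣ (∑ i, ((a i : ℕ) : ℤ)) - (c - (t : ℤ)) then (1 : ℝ) else 0) = 1 := by
    intro a
    refine Eq.trans ?_ (one_hit q hq ((∑ i, ((a i : ℕ) : ℤ)) - c))
    refine Finset.sum_congr rfl fun t _ => ?_
    have : (∑ i, ((a i : ℕ) : ℤ)) - (c - (t : ℤ)) = (∑ i, ((a i : ℕ) : ℤ)) - c + t := by ring
    rw [this]
  rw [Finset.sum_congr rfl fun a _ => h1 a]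
  simp

theorem cnt_bound (q : ℕ) (hq : 0 < q) (H r : ℕ) (b : ℤ) :
    |cnt q H r b - (H : ℝ) ^ r / q| ≤ (q : ℝ) ^ r := by
  have hq' : (0:ℝ) < q := by exact_mod_cast hq
  have hq1 : (1:ℝ) ≤ q := by exact_mod_cast hq
  induction r generalizing b with
  | zero =>
    unfold cnt
    simp only [pow_zero]
    have h1 : (1:ℝ) / q ≤ 1 := by rw [div_le_one hq']; exact hq1
    have h0 : (0:ℝ) < 1 / q := by positivity
    rw [Fintype.sum_unique]
    split_ifs
    · rw [abs_le]; constructor <;> linarith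
    · rw [abs_le]; constructor <;> linarith
  | succ r ih =>
    have h1 := per_bound q hq (fun c => cnt q H r c - (H : ℝ) ^ r / q) ((q:ℝ) ^ r) (fun c => ih c)
      (by
        intro c
        rw [Finset.sum_sub_distrib, cnt_total q hq H r c, Finset.sum_const, Finset.card_range,
          nsmul_eq_mul]
        field_simp
        ring) H b
    have h2 : cnt q H (r + 1) b - (H : ℝ) ^ (r + 1) / q =
        ∑ t ∈ Finset.range H, (cnt q H r (b - t) - (H : ℝ) ^ r / q) := by
      rw [Finset.sum_sub_distrib, cnt_succ, Finset.sum_const, Finset.card_range, nsmul_eq_mul]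
      ring
    rw [h2]
    refine h1.trans (le_of_eq (by ring))

/-- the form used by the sieve -/
theorem card_bound (q : ℕ) (hq : 0 < q) (H r : ℕ) (b : ℤ) :
    |(((univ : Finset (Fin r → Fin H)).filter
      (fun a => (q : ℤ) ∣ (∑ i, ((a i : ℕ) : ℤ)) - b)).card : ℝ) - (H : ℝ) ^ r / q| ≤
      (q : ℝ) ^ r := by
  have h1 : (((univ : Finset (Fin r → Fin H)).filter
      (fun a => (q : ℤ) ∣ (∑ i, ((a i : ℕ) : ℤ)) - b)).card : ℝ) = cnt q H r b := by
    unfold cnt
    rw [Finset.sum_boole]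
  rw [h1]
  exact cnt_bound q hq H r b

end Pool.Agent.K4H10.EX
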