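import Pool.Agent.K4H10.EX.Core
import Pool.Agent.K4H10.EX.Rough
import Pool.Agent.K4H10.EX.Prof
import Pool.Agent.K4H10.EX.Sums
import Pool.Agent.H256R2.SC.V2

set_option autoImplicit false
set_option linter.unusedSectionVars false

/-! # Numerical facts for the sharp covering theorem (helper10) -/

namespace Pool.Agent.K4H10.EX

open Finset Filter Pool.Agent.H256R2.SC

open scoped Classical

/-- upper bound for the Mertens product -/
theorem MP_upper : ∃ C : ℝ, 1 ≤ C ∧ ∀ w : ℝ, 3 ≤ w → MP w ≤ C * Real.log w := by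
  obtain ⟨C, hC⟩ := Pool.Agent.Helper256.KM.mertens_inv
  refine ⟨max 1 (Real.exp (C + 2)), le_max_left _ _, fun w hw => ?_⟩
  have h1 := LL.bad_prod C hC w hw ∅ (by simp; linarith)
  have h2 : (Finset.Icc 1 ⌊w⌋₊) ∪ (∅ : Finset ℕ).filter (fun p : ℕ => w < p) =
      Finset.Icc 1 ⌊w⌋₊ := by simp
  rw [h2] at h1
  unfold MP
  refine h1.trans ?_
  apply mul_le_mul_of_nonneg_right (le_max_right _ _)
  exact Real.log_nonneg (by linarith)

/-- lower bound for the Mertens product -/
theorem MP_lower (w : ℝ) (hw : 1 ≤ w) : Real.log w ≤ MP w := by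
  refine (LL.harm w hw).trans ?_
  unfold MP
  apply LL.euler_le
  intro a ha
  rw [Finset.mem_Icc] at ha
  rw [Nat.mem_factoredNumbers']
  intro q hq hqa
  rw [Finset.mem_Icc]
  exact ⟨hq.one_lt.le, (Nat.le_of_dvd ha.1 hqa).trans ha.2⟩

/-- all largeness conditions -/
theorem ev_cov (ε c CM : ℝ) (hε : 0 < ε) (hc : 0 < c) : ∃ L₀ : ℝ, ∀ L : ℝ, L₀ ≤ L →
    10 ≤ Real.log L ∧ 20 * CM ≤ Real.log L ∧
      2 * Real.log (Real.log L) + Real.log (1 / c) ≤ ε * Real.log L ∧
      1000 ≤ L ∧ Real.log L ≤ L ∧ (Real.log L) ^ 2 ≤ c * L ∧ 2 / L ^ 2 ≤ ε := by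
  have h1 : ∀ᶠ L : ℝ in atTop, 10 ≤ Real.log L := Real.tendsto_log_atTop.eventually_ge_atTop 10
  have h2 : ∀ᶠ L : ℝ in atTop, 20 * CM ≤ Real.log L :=
    Real.tendsto_log_atTop.eventually_ge_atTop _
  have h3 : ∀ᶠ L : ℝ in atTop, 2 * Real.log (Real.log L) + Real.log (1 / c) ≤ ε * Real.log L := by
    have e1 : ∀ᶠ t : ℝ in atTop, 2 * Real.log t + Real.log (1 / c) ≤ ε * t := by
      have e2 := Real.isLittleO_log_id_atTop.def (show (0:ℝ) < ε / 4 by positivity)
      filter_upwards [e2, eventually_ge_atTop (1:ℝ),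
        eventually_ge_atTop (2 * Real.log (1 / c) / ε)] with t ht ht1 ht2
      rw [Real.norm_eq_abs, abs_of_nonneg (Real.log_nonneg ht1), Real.norm_eq_abs] at ht
      simp only [id] at ht
      rw [abs_of_nonneg (by linarith)] at ht
      rw [div_le_iff₀ hε] at ht2
      linarith
    exact Real.tendsto_log_atTop.eventually e1
  have h5 : ∀ᶠ L : ℝ in atTop, Real.log L ≤ L := by
    filter_upwards [eventually_ge_atTop (1:ℝ)] with L hL
    linarith [Real.log_le_sub_one_of_pos (show (0:ℝ) < L by linarith)]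
  have h6 : ∀ᶠ L : ℝ in atTop, (Real.log L) ^ 2 ≤ c * L := by
    have e1 := (Real.isLittleO_pow_log_id_atTop (n := 2)).def hc
    filter_upwards [e1, eventually_ge_atTop (1:ℝ)] with L hL hL1
    rw [Real.norm_eq_abs, abs_of_nonneg (sq_nonneg _), Real.norm_eq_abs] at hL
    simp only [id] at hL
    rwa [abs_of_nonneg (by linarith)] at hL
  have h7 : ∀ᶠ L : ℝ in atTop, 2 / L ^ 2 ≤ ε := by
    filter_upwards [eventually_ge_atTop (1:ℝ), eventually_ge_atTop (2 / ε)] with L hL hL1
    rw [div_le_iff₀ (by positivity)]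
    rw [div_le_iff₀ hε] at hL1
    nlinarith
  obtain ⟨L₀, h⟩ := Filter.eventually_atTop.mp
    (((((h1.and h2).and h3).and (eventually_ge_atTop (1000:ℝ))).and h5).and (h6.and h7))
  exact ⟨L₀, fun L hL => ⟨(h L hL).1.1.1.1.1, (h L hL).1.1.1.1.2, (h L hL).1.1.1.2,
    (h L hL).1.1.2, (h L hL).1.2, (h L hL).2.1, (h L hL).2.2⟩⟩

/-- lower bound for `Bsum` of the primes in `(L², S]` -/
theorem Bsum_primes (ε C₃ L Λ c : ℝ) (hε : 0 < ε) (hε1 : ε ≤ 1 / 10) (hC : 1 ≤ C₃)
    (hMP : MP (L ^ 2) ≤ C₃ * Real.log L) (hΛ : 16 * C₃ / ε ≤ Λ)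
    (hΛ1 : Λ ≤ Real.log L) (hc : 0 < c)
    (f1 : 10 ≤ Real.log L) (f3 : 2 * Real.log (Real.log L) + Real.log (1 / c) ≤
      (ε / 16) * Real.log L) (f4 : 1000 ≤ L)
    (f6 : (Real.log L) ^ 2 ≤ c * L) (f7 : 2 / L ^ 2 ≤ ε / 16) :
    (1 - ε / 4) * Λ / MP (L ^ 2) ≤
      Bsum (fun i => ((emb (PS (L ^ 2) (Real.exp (min (Real.log L * Real.exp Λ)
        (c * L / Real.log L))) ∅) i : ℕ) : ℝ))
        (fun i => 1 / ((emb (PS (L ^ 2) (Real.exp (min (Real.log L * Real.exp Λ)
        (c * L / Real.log L))) ∅) i : ℕ) : ℝ))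
        (Real.exp (min (Real.log L * Real.exp Λ) (c * L / Real.log L))) := by
  set l := Real.log L with hl
  have hl0 : 0 < l := by linarith
  have hL0 : 0 < L := by linarith
  set yS : ℝ := min (l * Real.exp Λ) (c * L / l) with hyS
  set S : ℝ := Real.exp yS with hS
  set w : ℝ := L ^ 2 with hw
  have hw2 : 2 ≤ w := by rw [hw]; nlinarith
  set PP := PS w S ∅ with hPP
  have hΛ0 : 0 < Λ := lt_of_lt_of_le (by positivity) hΛ
  have hM := MP_pos w
  have hySl : l ≤ yS := by
    rw [hyS, le_min_iff]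
    constructor
    · have := Real.one_le_exp hΛ0.le
      nlinarith
    · rw [le_div_iff₀ hl0]
      nlinarith
  have hyS0 : 0 < yS := by linarith
  have hS1 : 1 < S := by rw [hS]; exact Real.one_lt_exp_iff.mpr hyS0
  have hlogS : Real.log S = yS := Real.log_exp _
  -- the logarithm
  have hlogyS : (1 - ε / 16) * Λ ≤ Real.log (yS / l) := by
    rw [hyS]
    rcases min_choice (l * Real.exp Λ) (c * L / l) with h | h
    · rw [h]
      have : l * Real.exp Λ / l = Real.exp Λ := by field_simp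
      rw [this, Real.log_exp]
      nlinarith
    · rw [h]
      have h1 : Real.log (c * L / l / l) = l - 2 * Real.log l - Real.log (1 / c) := by
        rw [Real.log_div (by positivity) (by positivity), Real.log_div (by positivity) (by positivity),
          Real.log_mul (by positivity) (by positivity), one_div, Real.log_inv]
        ring
      rw [h1]
      nlinarith
  have hlogyS0 : 0 ≤ Real.log (yS / l) := by
    refine le_trans ?_ hlogyS
    apply mul_nonneg _ hΛ0.le
    linarith
  -- number of steps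
  set η : ℝ := ε / 16 with hη
  have hη0 : 0 < η := by positivity
  have hlη : 0 < Real.log (1 + η) := Real.log_pos (by linarith)
  set J : ℕ := ⌊Real.log (yS / l) / Real.log (1 + η)⌋₊ + 1 with hJ
  have hJ1 : Real.log (yS / l) / Real.log (1 + η) ≤ J := by
    rw [hJ]; push_cast
    exact (Nat.lt_floor_add_one _).le
  have hPPm : ∀ q ∈ PP, (1:ℝ) < (q:ℝ) := by
    intro q h1
    rw [hPP] at h1
    unfold PS at h1
    rw [Finset.mem_filter] at h1
    exact_mod_cast h1.2.1.one_lt
  have hPPp : ∀ i, (1:ℝ) < ((emb PP i : ℕ) : ℝ) := fun i => hPPm _ (emb_mem PP i)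
  have h1 := Bsum_lower (fun i => ((emb PP i : ℕ) : ℝ)) (fun i => 1 / ((emb PP i : ℕ) : ℝ)) hPPp
    (fun i => by have := hPPp i; positivity) S hS1 ((1 - 2 / w) / MP w) η l hη0 hl0 J
    (by
      intro j hj
      rw [hlogS]
      have h2 : (j:ℝ) ≤ Real.log (yS / l) / Real.log (1 + η) := by
        have h3 : j ≤ ⌊Real.log (yS / l) / Real.log (1 + η)⌋₊ := by omega
        exact (Nat.le_floor_iff (by positivity)).mp h3
      rw [le_div_iff₀ hlη] at h2
      rw [← Real.log_pow] at h2
      have h3 := (Real.log_le_log_iff (by positivity) (by positivity)).mp h2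
      rwa [le_div_iff₀ hl0] at h3)
    (by
      intro j hj
      have h2 : (j:ℝ) ≤ Real.log (yS / l) / Real.log (1 + η) := by
        have h3 : j ≤ ⌊Real.log (yS / l) / Real.log (1 + η)⌋₊ := by omega
        exact (Nat.le_floor_iff (by positivity)).mp h3
      rw [le_div_iff₀ hlη] at h2
      rw [← Real.log_pow] at h2
      have h3 := (Real.log_le_log_iff (by positivity) (by positivity)).mp h2
      rw [le_div_iff₀ hl0] at h3
      have h4 := Asum_enum PP (Real.exp ((1 + η) ^ j * l))
      rw [h4]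
      have h5 := rough_lower w S (Real.exp ((1 + η) ^ j * l)) hw2
        (by rw [hS]; exact Real.exp_le_exp.mpr h3) (Real.one_le_exp (by positivity))
      rw [Real.log_exp] at h5
      exact h5)
  refine le_trans ?_ h1
  have h2 : 1 / l ≤ C₃ / MP w := by
    rw [div_le_div_iff₀ hl0 hM]
    linarith
  have h3 : (1 - η) / MP w ≤ (1 - 2 / w) / MP w := by
    apply div_le_div_of_nonneg_right _ hM.le
    linarith
  have h4 : Real.log (yS / l) / (1 + η) ≤ η / (1 + η) * J := by
    calc Real.log (yS / l) / (1 + η) ≤ η / (1 + η) * (Real.log (yS / l) / Real.log (1 + η)) := by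
          have h5 : Real.log (1 + η) ≤ η := by
            have := Real.log_le_sub_one_of_pos (show (0:ℝ) < 1 + η by linarith)
            linarith
          rw [div_mul_div_comm, div_le_div_iff₀ (by linarith) (by positivity)]
          have h6 : 0 ≤ Real.log (yS / l) * (1 + η) := by positivity
          nlinarith
      _ ≤ _ := by
          apply mul_le_mul_of_nonneg_left hJ1 (by positivity)
  have h5 : (1 - ε / 4) * Λ + C₃ ≤ (1 - η) * (Real.log (yS / l) / (1 + η)) := by
    have h6 : (1 - η) * (1 - η) * Λ ≤ (1 - η) * Real.log (yS / l) := by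
      rw [mul_assoc]
      exact mul_le_mul_of_nonneg_left hlogyS (by linarith)
    have h7 : C₃ ≤ η * Λ := by
      rw [div_le_iff₀ hε] at hΛ
      rw [hη]; linarith
    rw [mul_div_assoc', le_div_iff₀ (by linarith)]
    have h8 : ((1 - ε / 4) * Λ + C₃) * (1 + η) ≤ (1 - η) * (1 - η) * Λ := by
      have e1 : (1 - ε / 4) = 1 - 4 * η := by rw [hη]; ring
      rw [e1]
      have e2 : ((1 - 4 * η) * Λ + C₃) * (1 + η) ≤ ((1 - 4 * η) * Λ + η * Λ) * (1 + η) :=
        mul_le_mul_of_nonneg_right (by linarith) (by linarith)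
      have e3 : ((1 - 4 * η) * Λ + η * Λ) * (1 + η) = (1 - 2 * η - 3 * η ^ 2) * Λ := by ring
      rw [e3] at e2
      have e4 : (1 - 2 * η - 3 * η ^ 2) * Λ ≤ (1 - η) * (1 - η) * Λ := by
        apply mul_le_mul_of_nonneg_right _ hΛ0.le
        nlinarith
      linarith
    linarith
  calc (1 - ε / 4) * Λ / MP w = ((1 - ε / 4) * Λ + C₃) / MP w - C₃ / MP w := by ring
    _ ≤ (1 - η) * (Real.log (yS / l) / (1 + η)) / MP w - 1 / l := by
        have := div_le_div_of_nonneg_right h5 hM.le
        linarith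
    _ ≤ η / (1 + η) * ((1 - 2 / w) / MP w * J) - 1 / l := by
        have h6 : (1 - η) * (Real.log (yS / l) / (1 + η)) / MP w =
            (1 - η) / MP w * (Real.log (yS / l) / (1 + η)) := by ring
        rw [h6]
        have h7 : η / (1 + η) * ((1 - 2 / w) / MP w * J) =
            (1 - 2 / w) / MP w * (η / (1 + η) * J) := by ring
        rw [h7]
        have h8 : 0 ≤ Real.log (yS / l) / (1 + η) := by positivity
        have h9 : 0 ≤ (1 - 2 / w) / MP w := by
          apply div_nonneg _ hM.le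
          linarith
        have := mul_le_mul h3 h4 h8 h9
        linarith

end Pool.Agent.K4H10.EX
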