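import Pool.Agent.H398R2.RK.Smooth

set_option autoImplicit false

/-! # Sharp bound for the Euler product at `1 - η` (helper10) -/

namespace Pool.Agent.K4H10.EX

open Finset Pool.Agent.H318R2.Cr Pool.Agent.H398R2.RK

open scoped Classical

theorem euler_sharp : ∃ C : ℝ, 1 ≤ C ∧ ∀ (η : ℝ) (v : ℕ), 0 ≤ η → η ≤ 1 / 4 → 2 ≤ v →
    ∏ p ∈ Pz v, (1 - (p : ℝ) ^ (-(1 - η)))⁻¹ ≤
      C * Real.log v * Real.exp ((v : ℝ) ^ η * (1 + C / Real.log v)) := by
  obtain ⟨c₁, c₂, hc₁, _, hV⟩ := cz_bounds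
  obtain ⟨C, hM⟩ := Helper923.HMertens.mertens_log
  have hC : 0 ≤ C := (abs_nonneg _).trans (hM 1 le_rfl)
  have hs : Summable (fun n : ℕ => 1 / (n : ℝ) ^ (3 / 2 : ℝ)) := by
    have := Real.summable_nat_rpow_inv (p := (3 / 2 : ℝ)).2 (by norm_num)
    exact this.congr fun n => (one_div _).symm
  set C₂ : ℝ := ∑' n : ℕ, 1 / (n : ℝ) ^ (3 / 2 : ℝ) with hC₂
  have hC₂0 : 0 ≤ C₂ := tsum_nonneg fun n => by positivity
  set C₃ : ℝ := 1 / c₁ * Real.exp (4 * C₂) with hC₃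
  have hC₃0 : 0 < C₃ := by positivity
  refine ⟨max 1 (max C₃ C), le_max_left _ _, fun η v hη0 hη1 hv => ?_⟩
  have hv2 : (2:ℝ) ≤ v := by exact_mod_cast hv
  have hlv : 0 < Real.log v := Real.log_pos (by linarith)
  have hv0 : (0:ℝ) < v := by linarith
  -- pointwise
  have hpt : ∀ p ∈ Pz v, (1 - (p : ℝ) ^ (-(1 - η)))⁻¹ ≤
      (1 - 1 / (p : ℝ))⁻¹ * Real.exp ((v : ℝ) ^ η / Real.log v * (Real.log p / p) +
        4 * (1 / (p : ℝ) ^ (3 / 2 : ℝ))) := by
    intro p hp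
    obtain ⟨hpp, hpv⟩ := mem_Pz.1 hp
    have hp2 : (2 : ℝ) ≤ p := by exact_mod_cast hpp.two_le
    have hp0 : (0 : ℝ) < p := by linarith
    have hpv' : (p : ℝ) ≤ v := by exact_mod_cast hpv
    have hlp : 0 < Real.log p := Real.log_pos (by linarith)
    set a : ℝ := (p : ℝ) ^ (-(1 - η)) with ha
    have ha0 : 0 < a := by positivity
    have h1 : a ≤ 3 / 4 := by
      have h2 : (p : ℝ) ^ (-(1 - η)) ≤ (2 : ℝ) ^ (-(1 - η)) :=
        Real.rpow_le_rpow_of_nonpos (by norm_num) hp2 (by linarith)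
      have h3 : (2 : ℝ) ^ (-(1 - η)) ≤ (2 : ℝ) ^ (-(1 / 2) : ℝ) :=
        Real.rpow_le_rpow_of_exponent_le (by norm_num) (by linarith)
      have h4 : (2 : ℝ) ^ (-(1 / 2) : ℝ) ≤ 3 / 4 := by
        rw [Real.rpow_neg (by norm_num), ← Real.sqrt_eq_rpow]
        rw [inv_le_comm₀ (by positivity) (by norm_num)]
        rw [show ((3 : ℝ) / 4)⁻¹ = 4 / 3 by norm_num]
        apply Real.le_sqrt_of_sq_le; norm_num
      rw [ha]
      linarith
    have h5 : 1 / (p : ℝ) ≤ 1 / 2 := one_div_le_one_div_of_le (by norm_num) hp2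
    have h6 : 0 < 1 - a := by linarith
    have h7 : 0 < 1 - 1 / (p : ℝ) := by linarith
    -- a ≥ 1/p
    have h8 : 1 / (p : ℝ) ≤ a := by
      rw [ha, one_div, ← Real.rpow_neg_one]
      exact Real.rpow_le_rpow_of_exponent_le (by linarith) (by linarith)
    have h9 : a ^ 2 ≤ 1 / (p : ℝ) ^ (3 / 2 : ℝ) := by
      rw [ha, ← Real.rpow_natCast, ← Real.rpow_mul hp0.le, one_div, ← Real.rpow_neg hp0.le]
      apply Real.rpow_le_rpow_of_exponent_le (by linarith)
      push_cast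
      linarith
    -- convexity
    have h10 : a - 1 / p ≤ (v : ℝ) ^ η / Real.log v * (Real.log p / p) := by
      have e1 : a = 1 / p * Real.exp (η * Real.log p) := by
        rw [ha, show -(1 - η) = (-1) + η by ring, Real.rpow_add hp0, Real.rpow_neg_one, one_div]
        congr 1
        rw [Real.rpow_def_of_pos hp0]; ring_nf
      have e2 : (v : ℝ) ^ η = Real.exp (η * Real.log v) := by
        rw [Real.rpow_def_of_pos hv0]; ring_nf
      have e3 : Real.log p ≤ Real.log v := Real.log_le_log hp0 hpv'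
      -- exp (s y) ≤ 1 - s + s exp y with s = log p / log v, y = η log v
      set s : ℝ := Real.log p / Real.log v with hs'
      have hs0 : 0 ≤ s := by positivity
      have hs1 : s ≤ 1 := by rw [hs', div_le_one hlv]; exact e3
      have e4 : Real.exp (s * (η * Real.log v)) ≤ (1 - s) * 1 + s * Real.exp (η * Real.log v) := by
        have h11 := convexOn_exp.2 (Set.mem_univ (0:ℝ)) (Set.mem_univ (η * Real.log v))
          (by linarith : 0 ≤ 1 - s) hs0 (by ring)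
        simp only [smul_eq_mul, mul_zero, zero_add, Real.exp_zero] at h11
        exact h11
      have e5 : s * (η * Real.log v) = η * Real.log p := by
        rw [hs']; field_simp
      rw [e5, ← e2] at e4
      have e6 : Real.exp (η * Real.log p) - 1 ≤ s * (v : ℝ) ^ η := by linarith
      calc a - 1 / p = (Real.exp (η * Real.log p) - 1) / p := by rw [e1]; ring
        _ ≤ (s * (v : ℝ) ^ η) / p := by gcongr
        _ = _ := by rw [hs']; ring
    set t : ℝ := (v : ℝ) ^ η / Real.log v * (Real.log p / p) +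
        4 * (1 / (p : ℝ) ^ (3 / 2 : ℝ)) with ht
    have h12 : (1 - 1 / (p:ℝ)) / (1 - a) ≤ 1 + t := by
      rw [div_le_iff₀ h6]
      have e1 : a - 1 / p ≤ ((a - 1 / p) + 4 * a ^ 2) * (1 - a) := by
        have e2 : a - 1 / (p:ℝ) ≤ a := by
          have : 0 < 1 / (p:ℝ) := by positivity
          linarith
        have e3 : (a - 1 / p) * a ≤ a ^ 2 := by nlinarith
        have e4 : a ^ 2 ≤ 4 * a ^ 2 * (1 - a) := by nlinarith [sq_nonneg a]
        nlinarith
      have e5 : (a - 1 / p) + 4 * a ^ 2 ≤ t := by rw [ht]; linarith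
      have e6 : ((a - 1 / p) + 4 * a ^ 2) * (1 - a) ≤ t * (1 - a) :=
        mul_le_mul_of_nonneg_right e5 h6.le
      linarith
    have h13 : (1 - 1 / (p:ℝ)) / (1 - a) ≤ Real.exp t := by
      have := Real.add_one_le_exp t
      linarith
    rw [← div_eq_inv_mul, le_div_iff₀ h7]
    calc (1 - a)⁻¹ * (1 - 1 / (p:ℝ)) = (1 - 1 / (p:ℝ)) / (1 - a) := by ring
      _ ≤ _ := h13
  have hprod : ∏ p ∈ Pz v, (1 - (p : ℝ) ^ (-(1 - η)))⁻¹ ≤
      ∏ p ∈ Pz v, ((1 - 1 / (p : ℝ))⁻¹ * Real.exp ((v : ℝ) ^ η / Real.log v * (Real.log p / p) +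
        4 * (1 / (p : ℝ) ^ (3 / 2 : ℝ)))) := by
    apply prod_le_prod
    · intro p hp
      obtain ⟨hpp, hpv⟩ := mem_Pz.1 hp
      have := pow_lt_one' (σ := 1 - η) (by linarith) hpp
      exact inv_nonneg.2 (by linarith)
    · exact hpt
  refine hprod.trans ?_
  rw [prod_mul_distrib, ← Real.exp_sum, sum_add_distrib, ← mul_sum, ← mul_sum, prod_inv_distrib]
  have hV1 := (hV v hv).1
  have hVp := V_pos v
  have hVeq : ∏ p ∈ Pz v, (1 - 1 / (p : ℝ)) = V v := rfl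
  rw [hVeq]
  have hb1 : (V v)⁻¹ ≤ 1 / c₁ * Real.log v := by
    rw [inv_le_iff_one_le_mul₀ hVp]
    have : 1 / c₁ * Real.log v * V v = (V v * Real.log v) / c₁ := by ring
    rw [this, le_div_iff₀ hc₁]; linarith
  have hb2 : ∑ p ∈ Pz v, Real.log p / (p : ℝ) ≤ Real.log v + C := by
    have h1 := (abs_le.1 (hM v (by omega))).2
    have e0 : Icc 1 v = Ioc 0 v := by ext; simp [mem_Icc, mem_Ioc]; omega
    rw [e0] at h1
    unfold Pz
    linarith
  have hb3 : ∑ p ∈ Pz v, 1 / (p : ℝ) ^ (3 / 2 : ℝ) ≤ C₂ :=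
    hs.sum_le_tsum (Pz v) fun n _ => by positivity
  have hvη : 0 < (v:ℝ) ^ η := by positivity
  have hb4 : (v : ℝ) ^ η / Real.log v * ∑ p ∈ Pz v, Real.log p / (p : ℝ) +
      4 * ∑ p ∈ Pz v, 1 / (p : ℝ) ^ (3 / 2 : ℝ) ≤ (v : ℝ) ^ η * (1 + C / Real.log v) + 4 * C₂ := by
    have e1 : (v : ℝ) ^ η / Real.log v * ∑ p ∈ Pz v, Real.log p / (p : ℝ) ≤
        (v : ℝ) ^ η / Real.log v * (Real.log v + C) :=
      mul_le_mul_of_nonneg_left hb2 (by positivity)
    have e2 : (v : ℝ) ^ η / Real.log v * (Real.log v + C) = (v : ℝ) ^ η * (1 + C / Real.log v) := by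
      field_simp
    linarith
  calc (V v)⁻¹ * Real.exp ((v : ℝ) ^ η / Real.log v * ∑ p ∈ Pz v, Real.log p / (p : ℝ) +
      4 * ∑ p ∈ Pz v, 1 / (p : ℝ) ^ (3 / 2 : ℝ))
      ≤ (1 / c₁ * Real.log v) * Real.exp ((v : ℝ) ^ η * (1 + C / Real.log v) + 4 * C₂) := by
        apply mul_le_mul hb1 (Real.exp_le_exp.2 hb4) (Real.exp_pos _).le (by positivity)
    _ = C₃ * Real.log v * Real.exp ((v : ℝ) ^ η * (1 + C / Real.log v)) := by
        rw [Real.exp_add, hC₃]; ring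
    _ ≤ _ := by
        have e1 : C₃ ≤ max 1 (max C₃ C) := (le_max_left _ _).trans (le_max_right _ _)
        have e2 : C ≤ max 1 (max C₃ C) := (le_max_right _ _).trans (le_max_right _ _)
        gcongr

end Pool.Agent.K4H10.EX
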